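import Mathlib
import Pool.Agent.Helper12.Res.Defs

/-!
# Project RES (MP_d365ae_co): exchanges

`M` is a maximum matching avoiding `x` and `y`, `N F x y` is the set `E` of the route.  An edge is
local to `S ⊆ M` if it is disjoint from `VS (M \ S)`.

* `gain1`, `gain2`, `gain3`: `|S| + 1` pairwise disjoint edges local to `S` do not exist.
* `cov1`, `cov2`, `cov3`: `|S|` pairwise disjoint edges local to `S` which avoid `x`, `y` cover
  `N F x y ∩ VS S`.
-/

namespace Helper1.Res

open Finset Res12

set_option linter.unusedSectionVars false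

variable {V : Type} [Fintype V] [DecidableEq V]

/-- `g` meets no block of `M` outside `S` -/
def Lcl (M S : Finset (Finset V)) (g : Finset V) : Prop := Disjoint g (VS (M \ S))

theorem lcl_of {M S : Finset (Finset V)} (hm : IsMatching M) (hS : S ⊆ M) {g : Finset V}
    (h : ∀ v ∈ g, v ∈ VS S ∨ v ∉ VS M) : Lcl M S g := by
  unfold Lcl
  rw [Finset.disjoint_left]
  intro v hv hv'
  obtain ⟨b, hb, hvb⟩ := mem_VS.1 hv'
  rw [mem_sdiff] at hb
  rcases h v hv with h1 | h1
  · obtain ⟨c, hc, hvc⟩ := mem_VS.1 h1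
    have hne : b ≠ c := by
      rintro rfl
      exact hb.2 hc
    exact Finset.disjoint_left.1 (hm b hb.1 c (hS hc) hne) hvb hvc
  · exact h1 (mem_VS.2 ⟨b, hb.1, hvb⟩)

theorem VS_union (P Q : Finset (Finset V)) : VS (P ∪ Q) = VS P ∪ VS Q := by
  ext v
  simp only [mem_VS, mem_union]
  constructor
  · rintro ⟨e, he | he, hv⟩
    · exact Or.inl ⟨e, he, hv⟩
    · exact Or.inr ⟨e, he, hv⟩
  · rintro (⟨e, he, hv⟩ | ⟨e, he, hv⟩)
    · exact ⟨e, Or.inl he, hv⟩
    · exact ⟨e, Or.inr he, hv⟩

theorem IsMatching.union {P Q : Finset (Finset V)} (hP : IsMatching P) (hQ : IsMatching Q)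
    (hd : Disjoint (VS P) (VS Q)) : IsMatching (P ∪ Q) := by
  intro e he f hf hef
  rw [mem_union] at he hf
  rcases he with he | he <;> rcases hf with hf | hf
  · exact hP e he f hf hef
  · exact hd.mono (subset_VS he) (subset_VS hf)
  · exact (hd.mono (subset_VS hf) (subset_VS he)).symm
  · exact hQ e he f hf hef

theorem card_union_matching {P Q : Finset (Finset V)} (h3 : ∀ e ∈ P, e.card = 3)
    (hd : Disjoint (VS P) (VS Q)) : (P ∪ Q).card = P.card + Q.card := by
  apply card_union_of_disjoint
  rw [Finset.disjoint_left]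
  intro e he he'
  have hne : e.Nonempty := by
    rw [← card_pos, h3 e he]
    norm_num
  obtain ⟨v, hv⟩ := hne
  exact Finset.disjoint_left.1 hd (mem_VS.2 ⟨e, he, hv⟩) (mem_VS.2 ⟨e, he', hv⟩)

variable {F : Finset (Finset V)} {s : ℕ}

/-- no exchange gains an edge -/
theorem gain (h : Hyp F s) {M : Finset (Finset V)} (hM : M ⊆ F) (hm : IsMatching M)
    (hc : M.card = s) {S Q : Finset (Finset V)} (hS : S ⊆ M) (hQ : Q ⊆ F) (hmQ : IsMatching Q)
    (hcQ : S.card < Q.card) (hd : ∀ g ∈ Q, Lcl M S g) : False := by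
  have hdQ : Disjoint (VS Q) (VS (M \ S)) := by
    rw [Finset.disjoint_left]
    intro v hv hv'
    obtain ⟨g, hg, hvg⟩ := mem_VS.1 hv
    exact Finset.disjoint_left.1 (hd g hg) hvg hv'
  have h1 := h.le (Q ∪ (M \ S)) (union_subset hQ (sdiff_subset.trans hM))
    (IsMatching.union hmQ (hm.mono sdiff_subset) hdQ)
  rw [card_union_matching (fun e he => h.three e (hQ he)) hdQ, card_sdiff_of_subset hS] at h1
  have h2 := card_le_card hS
  omega

/-- **K2**: the exchanged matching covers the points `z` with `{x, y, z} ∈ F`. -/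
theorem cov (h : Hyp F s) {M : Finset (Finset V)} (hM : M ⊆ F) (hm : IsMatching M)
    (hc : M.card = s) {x y : V} (hx : x ∉ VS M) (hy : y ∉ VS M)
    {S Q : Finset (Finset V)} (hS : S ⊆ M) (hQ : Q ⊆ F) (hmQ : IsMatching Q)
    (hcQ : Q.card = S.card) (hd : ∀ g ∈ Q, Lcl M S g) (hxQ : ∀ g ∈ Q, x ∉ g)
    (hyQ : ∀ g ∈ Q, y ∉ g) {z : V} (hz : z ∈ N F x y) (hzS : z ∈ VS S) : z ∈ VS Q := by
  have hdQ : Disjoint (VS Q) (VS (M \ S)) := by
    rw [Finset.disjoint_left]
    intro v hv hv'
    obtain ⟨g, hg, hvg⟩ := mem_VS.1 hv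
    exact Finset.disjoint_left.1 (hd g hg) hvg hv'
  have h2 := card_le_card hS
  have h1 := h.N_subset (P := Q ∪ (M \ S)) (union_subset hQ (sdiff_subset.trans hM))
    (IsMatching.union hmQ (hm.mono sdiff_subset) hdQ)
    (by
      rw [card_union_matching (fun e he => h.three e (hQ he)) hdQ, card_sdiff_of_subset hS]
      omega) (a := x) (b := y) (by
      intro e he
      rw [mem_union] at he
      rcases he with he | he
      · exact ⟨hxQ e he, hyQ e he⟩
      · rw [mem_sdiff] at he
        exact ⟨fun h' => hx (mem_VS.2 ⟨e, he.1, h'⟩), fun h' => hy (mem_VS.2 ⟨e, he.1, h'⟩)⟩) hz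
  rw [VS_union, mem_union] at h1
  rcases h1 with h1 | h1
  · exact h1
  · exfalso
    have h3 : Lcl M S (VS S) := lcl_of hm hS (fun v hv => Or.inl hv)
    exact Finset.disjoint_left.1 h3 hzS h1

theorem isMatching_pair {g g' : Finset V} (h : Disjoint g g') : IsMatching {g, g'} := by
  intro e he f hf hef
  simp only [mem_insert, mem_singleton] at he hf
  rcases he with rfl | rfl <;> rcases hf with rfl | rfl
  · exact absurd rfl hef
  · exact h
  · exact h.symm
  · exact absurd rfl hef

theorem isMatching_three {g g' g'' : Finset V} (h1 : Disjoint g g') (h2 : Disjoint g g'')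
    (h3 : Disjoint g' g'') : IsMatching {g, g', g''} := by
  intro e he f hf hef
  simp only [mem_insert, mem_singleton] at he hf
  rcases he with rfl | rfl | rfl <;> rcases hf with rfl | rfl | rfl <;>
    first
    | exact absurd rfl hef
    | assumption
    | exact h1.symm
    | exact h2.symm
    | exact h3.symm

theorem ne_of_disj (h : Hyp F s) {g g' : Finset V} (hg : g ∈ F) (hd : Disjoint g g') :
    g ≠ g' := by
  rintro rfl
  have h1 := h.three g hg
  rw [disjoint_self_iff_empty] at hd
  rw [hd] at h1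
  simp at h1

section
variable (h : Hyp F s) {M : Finset (Finset V)} (hM : M ⊆ F) (hm : IsMatching M)
  (hc : M.card = s)
include h hM hm hc

/-- no two disjoint edges local to one block -/
theorem gain1 {e : Finset V} (he : e ∈ M) {g g' : Finset V} (hg : g ∈ F) (hg' : g' ∈ F)
    (hd : Disjoint g g') (l : Lcl M {e} g) (l' : Lcl M {e} g') : False := by
  refine gain h hM hm hc (S := {e}) (Q := {g, g'}) (by simpa using he) ?_
    (isMatching_pair hd) ?_ ?_
  · intro a ha
    simp only [mem_insert, mem_singleton] at ha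
    rcases ha with rfl | rfl <;> assumption
  · rw [card_pair (ne_of_disj h hg hd), card_singleton]
    norm_num
  · intro a ha
    simp only [mem_insert, mem_singleton] at ha
    rcases ha with rfl | rfl <;> assumption

/-- no three disjoint edges local to two blocks -/
theorem gain2 {e f : Finset V} (he : e ∈ M) (hf : f ∈ M) {g g' g'' : Finset V} (hg : g ∈ F)
    (hg' : g' ∈ F) (hg'' : g'' ∈ F) (hd : Disjoint g g') (hd' : Disjoint g g'')
    (hd'' : Disjoint g' g'') (l : Lcl M {e, f} g) (l' : Lcl M {e, f} g')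
    (l'' : Lcl M {e, f} g'') : False := by
  refine gain h hM hm hc (S := {e, f}) (Q := {g, g', g''}) ?_ ?_
    (isMatching_three hd hd' hd'') ?_ ?_
  · intro a ha
    simp only [mem_insert, mem_singleton] at ha
    rcases ha with rfl | rfl <;> assumption
  · intro a ha
    simp only [mem_insert, mem_singleton] at ha
    rcases ha with rfl | rfl | rfl <;> assumption
  · have h1 : ({g, g', g''} : Finset (Finset V)).card = 3 :=
      card_eq_three.2 ⟨g, g', g'', ne_of_disj h hg hd, ne_of_disj h hg hd',
        ne_of_disj h hg' hd'', rfl⟩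
    have h2 : ({e, f} : Finset (Finset V)).card ≤ 2 := card_le_two
    omega
  · intro a ha
    simp only [mem_insert, mem_singleton] at ha
    rcases ha with rfl | rfl | rfl <;> assumption

/-- no four disjoint edges local to three blocks -/
theorem gain3 {e f b : Finset V} (he : e ∈ M) (hf : f ∈ M) (hb : b ∈ M)
    {g1 g2 g3 g4 : Finset V} (h1 : g1 ∈ F) (h2 : g2 ∈ F) (h3 : g3 ∈ F) (h4 : g4 ∈ F)
    (d12 : Disjoint g1 g2) (d13 : Disjoint g1 g3) (d14 : Disjoint g1 g4)
    (d23 : Disjoint g2 g3) (d24 : Disjoint g2 g4) (d34 : Disjoint g3 g4)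
    (l1 : Lcl M {e, f, b} g1) (l2 : Lcl M {e, f, b} g2) (l3 : Lcl M {e, f, b} g3)
    (l4 : Lcl M {e, f, b} g4) : False := by
  refine gain h hM hm hc (S := {e, f, b}) (Q := insert g1 {g2, g3, g4}) ?_ ?_ ?_ ?_ ?_
  · intro a ha
    simp only [mem_insert, mem_singleton] at ha
    rcases ha with rfl | rfl | rfl <;> assumption
  · intro a ha
    simp only [mem_insert, mem_singleton] at ha
    rcases ha with rfl | rfl | rfl | rfl <;> assumption
  · apply IsMatching.insert (isMatching_three d23 d24 d34)
    rw [Finset.disjoint_left]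
    intro v hv hv'
    obtain ⟨g, hg, hvg⟩ := mem_VS.1 hv'
    simp only [mem_insert, mem_singleton] at hg
    rcases hg with rfl | rfl | rfl
    · exact Finset.disjoint_left.1 d12 hv hvg
    · exact Finset.disjoint_left.1 d13 hv hvg
    · exact Finset.disjoint_left.1 d14 hv hvg
  · have e1 : ({g2, g3, g4} : Finset (Finset V)).card = 3 :=
      card_eq_three.2 ⟨g2, g3, g4, ne_of_disj h h2 d23, ne_of_disj h h2 d24,
        ne_of_disj h h3 d34, rfl⟩
    have e2 : g1 ∉ ({g2, g3, g4} : Finset (Finset V)) := by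
      simp only [mem_insert, mem_singleton, not_or]
      exact ⟨ne_of_disj h h1 d12, ne_of_disj h h1 d13, ne_of_disj h h1 d14⟩
    rw [card_insert_of_notMem e2, e1]
    have e3 : ({e, f, b} : Finset (Finset V)).card ≤ 3 := card_le_three
    omega
  · intro a ha
    simp only [mem_insert, mem_singleton] at ha
    rcases ha with rfl | rfl | rfl | rfl <;> assumption

variable {x y : V} (hx : x ∉ VS M) (hy : y ∉ VS M)
include hx hy

theorem cov1 {e : Finset V} (he : e ∈ M) {g : Finset V} (hg : g ∈ F) (l : Lcl M {e} g)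
    (hxg : x ∉ g) (hyg : y ∉ g) {z : V} (hz : z ∈ N F x y) (hze : z ∈ e) : z ∈ g := by
  have h1 := cov h hM hm hc hx hy (S := {e}) (Q := {g}) (by simpa using he)
    (by simpa using hg) (by
      intro a ha b hb hab
      rw [mem_singleton] at ha hb
      exact absurd (ha.trans hb.symm) hab) rfl (by simpa using l) (by simpa using hxg)
    (by simpa using hyg) hz (mem_VS.2 ⟨e, by simp, hze⟩)
  simpa [VS] using h1

theorem cov2 {e f : Finset V} (he : e ∈ M) (hf : f ∈ M) (hef : e ≠ f) {g g' : Finset V}
    (hg : g ∈ F) (hg' : g' ∈ F) (hd : Disjoint g g') (l : Lcl M {e, f} g)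
    (l' : Lcl M {e, f} g') (hxg : x ∉ g) (hyg : y ∉ g) (hxg' : x ∉ g') (hyg' : y ∉ g')
    {z : V} (hz : z ∈ N F x y) (hze : z ∈ e ∨ z ∈ f) : z ∈ g ∨ z ∈ g' := by
  have h1 := cov h hM hm hc hx hy (S := {e, f}) (Q := {g, g'}) (by
      intro a ha
      simp only [mem_insert, mem_singleton] at ha
      rcases ha with rfl | rfl <;> assumption) (by
      intro a ha
      simp only [mem_insert, mem_singleton] at ha
      rcases ha with rfl | rfl <;> assumption) (isMatching_pair hd)
      (by rw [card_pair (ne_of_disj h hg hd), card_pair hef]) (by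
      intro a ha
      simp only [mem_insert, mem_singleton] at ha
      rcases ha with rfl | rfl <;> assumption) (by
      intro a ha
      simp only [mem_insert, mem_singleton] at ha
      rcases ha with rfl | rfl <;> assumption) (by
      intro a ha
      simp only [mem_insert, mem_singleton] at ha
      rcases ha with rfl | rfl <;> assumption) hz (by
      rcases hze with hze | hze
      · exact mem_VS.2 ⟨e, by simp, hze⟩
      · exact mem_VS.2 ⟨f, by simp, hze⟩)
  obtain ⟨k, hk, hzk⟩ := mem_VS.1 h1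
  simp only [mem_insert, mem_singleton] at hk
  rcases hk with rfl | rfl
  · exact Or.inl hzk
  · exact Or.inr hzk

theorem cov3 {e f b : Finset V} (he : e ∈ M) (hf : f ∈ M) (hb : b ∈ M) (hef : e ≠ f)
    (heb : e ≠ b) (hfb : f ≠ b) {g g' g'' : Finset V}
    (hg : g ∈ F) (hg' : g' ∈ F) (hg'' : g'' ∈ F) (hd : Disjoint g g') (hd' : Disjoint g g'')
    (hd'' : Disjoint g' g'') (l : Lcl M {e, f, b} g)
    (l' : Lcl M {e, f, b} g') (l'' : Lcl M {e, f, b} g'') (hxg : x ∉ g) (hyg : y ∉ g)
    (hxg' : x ∉ g') (hyg' : y ∉ g') (hxg'' : x ∉ g'') (hyg'' : y ∉ g'')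
    {z : V} (hz : z ∈ N F x y) (hze : z ∈ e ∨ z ∈ f ∨ z ∈ b) : z ∈ g ∨ z ∈ g' ∨ z ∈ g'' := by
  have h1 := cov h hM hm hc hx hy (S := {e, f, b}) (Q := {g, g', g''}) (by
      intro a ha
      simp only [mem_insert, mem_singleton] at ha
      rcases ha with rfl | rfl | rfl <;> assumption) (by
      intro a ha
      simp only [mem_insert, mem_singleton] at ha
      rcases ha with rfl | rfl | rfl <;> assumption) (isMatching_three hd hd' hd'')
      (by
        rw [card_eq_three.2 ⟨g, g', g'', ne_of_disj h hg hd, ne_of_disj h hg hd',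
          ne_of_disj h hg' hd'', rfl⟩, card_eq_three.2 ⟨e, f, b, hef, heb, hfb, rfl⟩]) (by
      intro a ha
      simp only [mem_insert, mem_singleton] at ha
      rcases ha with rfl | rfl | rfl <;> assumption) (by
      intro a ha
      simp only [mem_insert, mem_singleton] at ha
      rcases ha with rfl | rfl | rfl <;> assumption) (by
      intro a ha
      simp only [mem_insert, mem_singleton] at ha
      rcases ha with rfl | rfl | rfl <;> assumption) hz (by
      rcases hze with hze | hze | hze
      · exact mem_VS.2 ⟨e, by simp, hze⟩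
      · exact mem_VS.2 ⟨f, by simp, hze⟩
      · exact mem_VS.2 ⟨b, by simp, hze⟩)
  obtain ⟨k, hk, hzk⟩ := mem_VS.1 h1
  simp only [mem_insert, mem_singleton] at hk
  rcases hk with rfl | rfl | rfl
  · exact Or.inl hzk
  · exact Or.inr (Or.inl hzk)
  · exact Or.inr (Or.inr hzk)

end

end Helper1.Res
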