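import Pool.Agent.Helper1.Res.J01d

/-!
# Route A, the case `j ≤ 1`
-/

namespace Helper1.Res

open Finset Res12 RouteA Helper54.Res Helper9.Res

set_option linter.unusedSectionVars false
set_option linter.unusedVariables false

variable {V : Type} [Fintype V] [DecidableEq V]
variable {F P : Finset (Finset V)} {s j : ℕ} {x y : V}
variable {e f : Finset V} {u v t a b c : V}

/-- the pairs of a set of three points -/
theorem pairs3 (huv : u ≠ v) (hut : u ≠ t) (hvt : v ≠ t) :
    ({u, v, t} : Finset V).powersetCard 2 = {{v, t}, {u, t}, {u, v}} := by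
  ext g
  rw [mem_powersetCard]
  constructor
  · rintro ⟨h1, h2⟩
    obtain ⟨i, k, hik, rfl⟩ := card_eq_two.1 h2
    have hi : i ∈ ({u, v, t} : Finset V) := h1 (by simp)
    have hk : k ∈ ({u, v, t} : Finset V) := h1 (by simp)
    simp only [mem_insert, mem_singleton] at hi hk ⊢
    rcases hi with rfl | rfl | rfl <;> rcases hk with rfl | rfl | rfl
    · exact absurd rfl hik
    · exact Or.inr (Or.inr rfl)
    · exact Or.inr (Or.inl rfl)
    · exact Or.inr (Or.inr (pair_comm _ _))
    · exact absurd rfl hik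
    · exact Or.inl rfl
    · exact Or.inr (Or.inl (pair_comm _ _))
    · exact Or.inl (pair_comm _ _)
    · exact absurd rfl hik
  · intro hg
    simp only [mem_insert, mem_singleton] at hg
    rcases hg with rfl | rfl | rfl
    · refine ⟨?_, card_pair hvt⟩
      intro z hz
      simp only [mem_insert, mem_singleton] at hz ⊢
      tauto
    · refine ⟨?_, card_pair hut⟩
      intro z hz
      simp only [mem_insert, mem_singleton] at hz ⊢
      tauto
    · refine ⟨?_, card_pair huv⟩
      intro z hz
      simp only [mem_insert, mem_singleton] at hz ⊢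
      tauto

theorem sum_pairs3 (huv : u ≠ v) (hut : u ≠ t) (hvt : v ≠ t) (X : Finset V → ℤ) :
    ∑ g ∈ ({u, v, t} : Finset V).powersetCard 2, X g = X {v, t} + X {u, t} + X {u, v} := by
  rw [pairs3 huv hut hvt, sum_insert, sum_insert, sum_singleton, add_assoc]
  · rw [mem_singleton]
    intro h1
    have h2 : t ∈ ({u, v} : Finset V) := by rw [← h1]; simp
    simp only [mem_insert, mem_singleton] at h2
    rcases h2 with h2 | h2
    · exact hut h2.symm
    · exact hvt h2.symm
  · rw [mem_insert, mem_singleton, not_or]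
    constructor
    · intro h1
      have h2 : v ∈ ({u, t} : Finset V) := by rw [← h1]; simp
      simp only [mem_insert, mem_singleton] at h2
      rcases h2 with h2 | h2
      · exact huv h2.symm
      · exact hvt h2
    · intro h1
      have h2 : t ∈ ({u, v} : Finset V) := by rw [← h1]; simp
      simp only [mem_insert, mem_singleton] at h2
      rcases h2 with h2 | h2
      · exact hut h2.symm
      · exact hvt h2.symm

section
variable (h : SetUp F s j P x y)
include h

/-- the numbers at the point `u` of the block `{u, v, t}` -/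
theorem vert (he : ({u, v, t} : Finset V) ∈ P) :
    lam F P v t ≤ (lb F P x y v t).card ∧
    ((lb F P x y x u).card = 0 ∨ lam F P v t ≤ (lb F P x y v t).card - 1) ∧
    ((lb F P x y y u).card = 0 ∨ lam F P v t ≤ (lb F P x y v t).card - 1) ∧
    ((lb F P x y x u).card = 0 ∨ (lb F P x y y u).card = 0 ∨
      lam F P v t ≤ (lb F P x y v t).card - 2) ∧
    ((lb F P x y v t).card = 0 ∨ ep F x y u = 1) ∧
    (lb F P x y x u).card ≤ s + ep F x y u ∧ (lb F P x y y u).card ≤ s + ep F x y u ∧
    lam F P v t ≤ s - 1 ∧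
    ((lb F P x y v t).card = 0 ∨ (lb F P x y x u).card = 0 ∨
      ((lb F P x y v t).card ≤ 1 ∧ (lb F P x y x u).card ≤ 1)) ∧
    ((lb F P x y v t).card = 0 ∨ (lb F P x y y u).card = 0 ∨
      ((lb F P x y v t).card ≤ 1 ∧ (lb F P x y y u).card ≤ 1)) := by
  have hd := h.dW_eq v t
  have h2 : (N F v t ∩ {x, y}).card ≤ 2 := (card_le_card inter_subset_right).trans card_le_two
  have hv : v ∈ ({u, v, t} : Finset V) := by simp
  have ht : t ∈ ({u, v, t} : Finset V) := by simp
  -- equal labels
  have same : ∀ z : V, z ∉ VS P → (lb F P x y v t).card = 0 ∨ (lb F P x y z u).card = 0 ∨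
      ((lb F P x y v t).card ≤ 1 ∧ (lb F P x y z u).card ≤ 1) ∨ z ≠ x ∧ z ≠ y := by
    intro z hz
    by_cases hzz : z ≠ x ∧ z ≠ y
    · exact Or.inr (Or.inr (Or.inr hzz))
    by_cases k1 : (lb F P x y v t).card = 0
    · exact Or.inl k1
    by_cases k2 : (lb F P x y z u).card = 0
    · exact Or.inr (Or.inl k2)
    right; right; left
    obtain ⟨w1, hw1⟩ : (lb F P x y v t).Nonempty := by rw [← card_pos]; omega
    obtain ⟨w2, hw2⟩ : (lb F P x y z u).Nonempty := by rw [← card_pos]; omega
    have key : ∀ q ∈ lb F P x y v t, ∀ r ∈ lb F P x y z u, q = r := by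
      intro q hq r hr
      obtain ⟨q1, q2, q3, q4⟩ := mem_lb.1 hq
      obtain ⟨r1, r2, r3, r4⟩ := mem_lb.1 hr
      rcases h.own_label_unique he hz r2 q2 r1 q1 with k | k
      · exfalso
        apply hzz
        rw [← k]
        exact ⟨q3, q4⟩
      · exact k
    constructor
    · rw [card_le_one]
      intro q hq q' hq'
      rw [key q hq w2 hw2, key q' hq' w2 hw2]
    · rw [card_le_one]
      intro q hq q' hq'
      rw [← key w1 hw1 q hq, ← key w1 hw1 q' hq']
  have kx : (lb F P x y x u).card = 0 ∨ y ∉ N F v t := by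
    by_cases k : (lb F P x y x u).card = 0
    · exact Or.inl k
    · right
      rw [mem_N]
      exact h.N1x he (by rw [← card_pos]; omega)
  have ky : (lb F P x y y u).card = 0 ∨ x ∉ N F v t := by
    by_cases k : (lb F P x y y u).card = 0
    · exact Or.inl k
    · right
      rw [mem_N]
      exact h.N1y he (by rw [← card_pos]; omega)
  have cx : y ∉ N F v t → (N F v t ∩ {x, y}).card ≤ 1 := by
    intro hy
    have : N F v t ∩ {x, y} ⊆ {x} := by
      intro q hq
      simp only [mem_inter, mem_insert, mem_singleton] at hq ⊢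
      rcases hq.2 with h' | h'
      · exact h'
      · exact absurd (h' ▸ hq.1) hy
    simpa using card_le_card this
  have cy : x ∉ N F v t → (N F v t ∩ {x, y}).card ≤ 1 := by
    intro hx
    have : N F v t ∩ {x, y} ⊆ {y} := by
      intro q hq
      simp only [mem_inter, mem_insert, mem_singleton] at hq ⊢
      rcases hq.2 with h' | h'
      · exact absurd (h' ▸ hq.1) hx
      · exact h'
    simpa using card_le_card this
  have cxy : x ∉ N F v t → y ∉ N F v t → (N F v t ∩ {x, y}).card = 0 := by
    intro hx hy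
    rw [card_eq_zero, eq_empty_iff_forall_notMem]
    intro q hq
    simp only [mem_inter, mem_insert, mem_singleton] at hq
    rcases hq.2 with h' | h'
    · exact hx (h' ▸ hq.1)
    · exact hy (h' ▸ hq.1)
  refine ⟨?_, ?_, ?_, ?_, ?_, ?_, ?_, ?_, ?_, ?_⟩
  · unfold lam
    omega
  · rcases kx with k | k
    · exact Or.inl k
    · right
      have := cx k
      unfold lam
      omega
  · rcases ky with k | k
    · exact Or.inl k
    · right
      have := cy k
      unfold lam
      omega
  · rcases kx with k | k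
    · exact Or.inl k
    · rcases ky with k' | k'
      · exact Or.inr (Or.inl k')
      · right; right
        have := cxy k' k
        unfold lam
        omega
  · by_cases k : (lb F P x y v t).card = 0
    · exact Or.inl k
    · right
      have he' : ({v, t, u} : Finset V) ∈ P := by
        rw [← rot]
        exact he
      have := h.own_J he' (by rw [← card_pos]; omega)
      unfold ep
      rw [if_neg this]
  · unfold ep
    split_ifs with hE
    · exact h.lb_out_E_le h.avx hE
    · exact h.lb_out_le h.avx u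
  · unfold ep
    split_ifs with hE
    · exact h.lb_out_E_le h.avy hE
    · exact h.lb_out_le h.avy u
  · exact h.lam_own_le he hv ht
  · rcases same x h.avx with k | k | k | k
    · exact Or.inl k
    · exact Or.inr (Or.inl k)
    · exact Or.inr (Or.inr k)
    · exact absurd rfl k.1
  · rcases same y h.avy with k | k | k | k
    · exact Or.inl k
    · exact Or.inr (Or.inl k)
    · exact Or.inr (Or.inr k)
    · exact absurd rfl k.2

/-- `N2` in numbers -/
theorem n2 (he : e ∈ P) (hu : u ∈ e) (hv : v ∈ e) (huv : u ≠ v) :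
    (lb F P x y x u).card = 0 ∨ (lb F P x y y v).card = 0 ∨
      ((lb F P x y x u).card ≤ 1 ∧ (lb F P x y y v).card ≤ 1) := by
  by_cases k1 : (lb F P x y x u).card = 0
  · exact Or.inl k1
  by_cases k2 : (lb F P x y y v).card = 0
  · exact Or.inr (Or.inl k2)
  right; right
  obtain ⟨w, h1, h2⟩ := h.N2 he hu hv huv (by rw [← card_pos]; omega) (by rw [← card_pos]; omega)
  rw [h1, h2]
  simp

/-- the term of a block in coordinates -/
theorem block_eq3 (he : ({u, v, t} : Finset V) ∈ P) (hty : ty F x y {u, v, t} ≤ 1) :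
    (Res83.A F P {{u, v, t}} : ℤ) - 10 = (lam F P v t + lam F P u t + lam F P u v) +
      (((lb F P x y x u).card + (lb F P x y y u).card : ℤ) +
      ((lb F P x y x v).card + (lb F P x y y v).card) +
      ((lb F P x y x t).card + (lb F P x y y t).card)) -
      (ep F x y u + ep F x y v + ep F x y t) := by
  obtain ⟨huv, hut, hvt⟩ := h.toMM.ne3 he
  have hu : u ∈ ({u, v, t} : Finset V) := by simp
  have hv : v ∈ ({u, v, t} : Finset V) := by simp
  have ht : t ∈ ({u, v, t} : Finset V) := by simp
  rw [h.A_block he]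
  have h1 := h.sum_points he
  rw [sum_insert (by simp [huv, hut]), sum_insert (by simp [hvt]), sum_singleton,
    h.gp_empty he hty hu, h.gp_empty he hty hv, h.gp_empty he hty ht, card_empty] at h1
  have h2 := ty_eq (F := F) (x := x) (y := y) ({u, v, t} : Finset V)
  rw [sum3 huv hut hvt] at h2
  rw [sum_pairs3 huv hut hvt, dg_pair h.three hvt (subset_VS he hv) (subset_VS he ht),
    dg_pair h.three hut (subset_VS he hu) (subset_VS he ht),
    dg_pair h.three huv (subset_VS he hu) (subset_VS he hv)]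
  unfold lam
  rw [h2] at h1
  push_cast at h1 ⊢
  linarith

/-- **the term of a block** -/
theorem block_bound (hs : 3 ≤ s) (he : e ∈ P) (hty : ty F x y e ≤ 1) :
    (Res83.A F P {e} : ℤ) - 10 ≤ 3 * (s - 1) ∧
    ((∀ u ∈ e, lb F P x y x u = ∅ ∧ lb F P x y y u = ∅) →
      (Res83.A F P {e} : ℤ) - 10 ≤ s * ty F x y e - ty F x y e) := by
  obtain ⟨u, v, t, huv, hut, hvt, rfl⟩ := card_eq_three.1 (h.threeP e he)
  have hu : u ∈ ({u, v, t} : Finset V) := by simp
  have hv : v ∈ ({u, v, t} : Finset V) := by simp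
  have ht : t ∈ ({u, v, t} : Finset V) := by simp
  have h2 := ty_eq (F := F) (x := x) (y := y) ({u, v, t} : Finset V)
  rw [sum3 huv hut hvt] at h2
  have he2 : ({v, u, t} : Finset V) ∈ P := by
    rw [← triple_comm12]
    exact he
  have he3 : ({t, u, v} : Finset V) ∈ P := by
    rw [rot]
    exact he
  have A1 := vert h he
  have A2 := vert h he2
  have A3 := vert h he3
  have B1 := n2 h he hu hv huv
  have B2 := n2 h he hu ht hut
  have B3 := n2 h he hv hu huv.symm
  have B4 := n2 h he hv ht hvt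
  have B5 := n2 h he ht hu hut.symm
  have B6 := n2 h he ht hv hvt.symm
  rw [block_eq3 h he hty]
  rw [h2] at hty
  constructor
  · generalize (lb F P x y x u).card = xu at *
    generalize (lb F P x y y u).card = yu at *
    generalize (lb F P x y x v).card = xv at *
    generalize (lb F P x y y v).card = yv at *
    generalize (lb F P x y x t).card = xt at *
    generalize (lb F P x y y t).card = yt at *
    generalize (lb F P x y v t).card = lu at *
    generalize (lb F P x y u t).card = lv at *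
    generalize (lb F P x y u v).card = lt at *
    generalize lam F P v t = Lu at *
    generalize lam F P u t = Lv at *
    generalize lam F P u v = Lt at *
    generalize ep F x y u = eu at *
    generalize ep F x y v = ev at *
    generalize ep F x y t = et at *
    -- one vertex
    have key : ∀ (n m l E : ℕ) (L : ℤ), (L ≤ l ∧ (n = 0 ∨ L ≤ (l : ℤ) - 1) ∧
        (m = 0 ∨ L ≤ (l : ℤ) - 1) ∧ (n = 0 ∨ m = 0 ∨ L ≤ (l : ℤ) - 2) ∧ (l = 0 ∨ E = 1) ∧
        n ≤ s + E ∧ m ≤ s + E ∧ L ≤ (s : ℤ) - 1 ∧ (l = 0 ∨ n = 0 ∨ l ≤ 1 ∧ n ≤ 1) ∧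
        (l = 0 ∨ m = 0 ∨ l ≤ 1 ∧ m ≤ 1)) →
        L + (n + m) - E ≤ (s : ℤ) - 1 ∨
        (2 ≤ n ∧ 2 ≤ m ∧ L + (n + m) - E ≤ 2 * (s : ℤ) - 2 + E) := by
      rintro n m l E L ⟨a1, a2, a3, a4, a5, a6, a7, a8, a9, a10⟩
      omega
    have key0 : ∀ (n m l E : ℕ) (L : ℤ), (L ≤ l ∧ (n = 0 ∨ L ≤ (l : ℤ) - 1) ∧
        (m = 0 ∨ L ≤ (l : ℤ) - 1) ∧ (n = 0 ∨ m = 0 ∨ L ≤ (l : ℤ) - 2) ∧ (l = 0 ∨ E = 1) ∧
        n ≤ s + E ∧ m ≤ s + E ∧ L ≤ (s : ℤ) - 1 ∧ (l = 0 ∨ n = 0 ∨ l ≤ 1 ∧ n ≤ 1) ∧
        (l = 0 ∨ m = 0 ∨ l ≤ 1 ∧ m ≤ 1)) → n = 0 → m = 0 →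
        (E = 0 ∧ L + (n + m) - E ≤ 0) ∨ (1 ≤ E ∧ L + (n + m) - E ≤ (s : ℤ) - 2) := by
      rintro n m l E L ⟨a1, a2, a3, a4, a5, a6, a7, a8, a9, a10⟩ hn hm
      omega
    have C1 := key xu yu lu eu Lu A1
    have C2 := key xv yv lv ev Lv A2
    have C3 := key xt yt lt et Lt A3
    have D1 := key0 xu yu lu eu Lu A1
    have D2 := key0 xv yv lv ev Lv A2
    have D3 := key0 xt yt lt et Lt A3
    clear A1 A2 A3 key key0
    rcases C1 with C1 | ⟨C1, C1', C1''⟩
    · rcases C2 with C2 | ⟨C2, C2', C2''⟩
      · rcases C3 with C3 | ⟨C3, C3', C3''⟩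
        · linarith
        · have z1 : xu = 0 := by omega
          have z2 : yu = 0 := by omega
          have z3 : xv = 0 := by omega
          have z4 : yv = 0 := by omega
          have D1 := D1 z1 z2
          have D2 := D2 z3 z4
          clear B1 B2 B3 B4 B5 B6 D3
          omega
      · have z1 : xu = 0 := by omega
        have z2 : yu = 0 := by omega
        have z3 : xt = 0 := by omega
        have z4 : yt = 0 := by omega
        have D1 := D1 z1 z2
        have D3 := D3 z3 z4
        clear B1 B2 B3 B4 B5 B6 D2 C3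
        omega
    · have z1 : xv = 0 := by omega
      have z2 : yv = 0 := by omega
      have z3 : xt = 0 := by omega
      have z4 : yt = 0 := by omega
      have D2 := D2 z1 z2
      have D3 := D3 z3 z4
      clear B1 B2 B3 B4 B5 B6 D1 C2 C3
      omega
  · intro hno
    rw [(hno u hu).1, (hno u hu).2, (hno v hv).1, (hno v hv).2, (hno t ht).1, (hno t ht).2,
      card_empty]
    clear B1 B2 B3 B4 B5 B6
    obtain ⟨a1, -, -, -, a5, -, -, a8, -, -⟩ := A1
    obtain ⟨b1, -, -, -, b5, -, -, b8, -, -⟩ := A2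
    obtain ⟨c1, -, -, -, c5, -, -, c8, -, -⟩ := A3
    rw [h2]
    have q1 : (ep F x y u = 0 ∧ ep F x y v = 0 ∧ ep F x y t = 0) ∨
        (ep F x y u = 1 ∧ ep F x y v = 0 ∧ ep F x y t = 0) ∨
        (ep F x y u = 0 ∧ ep F x y v = 1 ∧ ep F x y t = 0) ∨
        (ep F x y u = 0 ∧ ep F x y v = 0 ∧ ep F x y t = 1) := by omega
    rcases q1 with ⟨r1, r2, r3⟩ | ⟨r1, r2, r3⟩ | ⟨r1, r2, r3⟩ | ⟨r1, r2, r3⟩ <;>
      rw [r1, r2, r3] <;> push_cast <;> omega

end

end Helper1.Res
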