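import Mathlib
import Pool.Agent.Helper1.Res.Exch

/-!
# Project RES (MP_d365ae_co), LA4: kills for one and two blocks

`e = {u, v, t}`, `f = {a, b, c}` are two different blocks of the maximum matching `M`; `x`, `y` are
not covered by `M`; `w`, `w'` are not covered by `M` either.
-/

namespace Helper1.Res

open Finset Res12

set_option linter.unusedSectionVars false

variable {V : Type} [Fintype V] [DecidableEq V]

theorem disj3 {p q r p' q' r' : V} (h : p ≠ p' ∧ p ≠ q' ∧ p ≠ r' ∧ q ≠ p' ∧ q ≠ q' ∧ q ≠ r' ∧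
    r ≠ p' ∧ r ≠ q' ∧ r ≠ r') : Disjoint ({p, q, r} : Finset V) {p', q', r'} := by
  obtain ⟨h1, h2, h3, h4, h5, h6, h7, h8, h9⟩ := h
  rw [Finset.disjoint_left]
  intro z hz hz'
  simp only [mem_insert, mem_singleton] at hz hz'
  rcases hz with rfl | rfl | rfl <;> rcases hz' with h | h | h <;> contradiction

/-- `M` is a maximum matching of `F` -/
structure MM (F : Finset (Finset V)) (s : ℕ) (M : Finset (Finset V)) : Prop where
  hyp : Hyp F s
  sub : M ⊆ F
  mat : IsMatching M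
  card : M.card = s

variable {F M : Finset (Finset V)} {s : ℕ}

theorem ne_of_card3 {u v t : V} (h : ({u, v, t} : Finset V).card = 3) :
    u ≠ v ∧ u ≠ t ∧ v ≠ t := by
  refine ⟨?_, ?_, ?_⟩
  · rintro rfl
    have h1 : ({u, u, t} : Finset V).card ≤ 2 := by
      rw [show ({u, u, t} : Finset V) = {u, t} by simp]
      exact card_le_two
    omega
  · rintro rfl
    have h1 : ({u, v, u} : Finset V).card ≤ 2 := by
      rw [show ({u, v, u} : Finset V) = {v, u} by ext z; simp only [mem_insert, mem_singleton]; tauto]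
      exact card_le_two
    omega
  · rintro rfl
    have h1 : ({u, v, v} : Finset V).card ≤ 2 := by
      rw [show ({u, v, v} : Finset V) = {u, v} by simp]
      exact card_le_two
    omega

theorem MM.ne3 (hM : MM F s M) {u v t : V} (he : ({u, v, t} : Finset V) ∈ M) :
    u ≠ v ∧ u ≠ t ∧ v ≠ t := ne_of_card3 (hM.hyp.three _ (hM.sub he))

/-- points of different blocks are different -/
theorem MM.neq (hM : MM F s M) {e f : Finset V} (he : e ∈ M) (hf : f ∈ M) (hef : e ≠ f) {p q : V}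
    (hp : p ∈ e) (hq : q ∈ f) : p ≠ q := by
  rintro rfl
  exact Finset.disjoint_left.1 (hM.mat e he f hf hef) hp hq

theorem out_ne {e : Finset V} (he : e ∈ M) {p w : V} (hp : p ∈ e) (hw : w ∉ VS M) : p ≠ w := by
  rintro rfl
  exact hw (mem_VS.2 ⟨e, he, hp⟩)

/-- the status of a point with respect to the blocks in `S` -/
theorem lcl3 (hM : MM F s M) {S : Finset (Finset V)} (hS : S ⊆ M) {p q r : V}
    (hp : p ∈ VS S ∨ p ∉ VS M) (hq : q ∈ VS S ∨ q ∉ VS M) (hr : r ∈ VS S ∨ r ∉ VS M) :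
    Lcl M S {p, q, r} := by
  apply lcl_of hM.mat hS
  intro z hz
  simp only [mem_insert, mem_singleton] at hz
  rcases hz with rfl | rfl | rfl <;> assumption

/-! ### One block -/

section One
variable {u v t x y w w' : V}

/-- an own label leaves the third point outside `E` -/
theorem own_label (hM : MM F s M) (hx : x ∉ VS M) (hy : y ∉ VS M)
    (he : ({u, v, t} : Finset V) ∈ M) (hw : w ∉ VS M) (hwx : w ≠ x) (hwy : w ≠ y)
    (h1 : ({u, v, w} : Finset V) ∈ F) : t ∉ N F x y := by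
  intro ht
  obtain ⟨huv, hut, hvt⟩ := hM.ne3 he
  have hS : ({({u, v, t} : Finset V)} : Finset (Finset V)) ⊆ M := by simpa using he
  have := cov1 hM.hyp hM.sub hM.mat hM.card hx hy he h1
    (lcl3 hM hS (Or.inl (mem_VS.2 ⟨_, mem_singleton_self _, by simp⟩))
      (Or.inl (mem_VS.2 ⟨_, mem_singleton_self _, by simp⟩)) (Or.inr hw))
    (by
      simp only [mem_insert, mem_singleton, not_or]
      exact ⟨(out_ne he (by simp) hx).symm, (out_ne he (by simp) hx).symm, hwx.symm⟩)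
    (by
      simp only [mem_insert, mem_singleton, not_or]
      exact ⟨(out_ne he (by simp) hy).symm, (out_ne he (by simp) hy).symm, hwy.symm⟩)
    ht (by simp)
  simp only [mem_insert, mem_singleton] at this
  rcases this with h | h | h
  · exact hut h.symm
  · exact hvt h.symm
  · exact out_ne he (by simp) hw h

/-- an edge with one point `u` in the block and two points outside leaves the other two points
outside `E` -/
theorem own_G (hM : MM F s M) (hx : x ∉ VS M) (hy : y ∉ VS M)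
    (he : ({u, v, t} : Finset V) ∈ M) (hw : w ∉ VS M) (hw' : w' ∉ VS M) (hwx : w ≠ x)
    (hwy : w ≠ y) (hwx' : w' ≠ x) (hwy' : w' ≠ y)
    (h1 : ({u, w, w'} : Finset V) ∈ F) : v ∉ N F x y ∧ t ∉ N F x y := by
  obtain ⟨huv, hut, hvt⟩ := hM.ne3 he
  have hS : ({({u, v, t} : Finset V)} : Finset (Finset V)) ⊆ M := by simpa using he
  have key : ∀ z : V, z ∈ N F x y → z ∈ ({u, v, t} : Finset V) →
      z ∈ ({u, w, w'} : Finset V) := fun z hz hze =>
    cov1 hM.hyp hM.sub hM.mat hM.card hx hy he h1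
    (lcl3 hM hS (Or.inl (mem_VS.2 ⟨_, mem_singleton_self _, by simp⟩))
      (Or.inr hw) (Or.inr hw'))
    (by
      simp only [mem_insert, mem_singleton, not_or]
      exact ⟨(out_ne he (by simp) hx).symm, hwx.symm, hwx'.symm⟩)
    (by
      simp only [mem_insert, mem_singleton, not_or]
      exact ⟨(out_ne he (by simp) hy).symm, hwy.symm, hwy'.symm⟩)
    hz hze
  constructor
  · intro hz
    have := key v hz (by simp)
    simp only [mem_insert, mem_singleton] at this
    rcases this with h | h | h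
    · exact huv h.symm
    · exact out_ne he (by simp) hw h
    · exact out_ne he (by simp) hw' h
  · intro hz
    have := key t hz (by simp)
    simp only [mem_insert, mem_singleton] at this
    rcases this with h | h | h
    · exact hut h.symm
    · exact out_ne he (by simp) hw h
    · exact out_ne he (by simp) hw' h

/-- two disjoint edges inside one block and the outside: `{p, q, r}`, `{p', q', r'}` each consist
of points of the block or points outside `V(M)` -/
theorem one_block (hM : MM F s M) {e : Finset V} (he : e ∈ M) {g g' : Finset V} (hg : g ∈ F)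
    (hg' : g' ∈ F) (hd : Disjoint g g') (l : ∀ z ∈ g, z ∈ e ∨ z ∉ VS M)
    (l' : ∀ z ∈ g', z ∈ e ∨ z ∉ VS M) : False := by
  have hS : ({e} : Finset (Finset V)) ⊆ M := by simpa using he
  refine gain1 hM.hyp hM.sub hM.mat hM.card he hg hg' hd ?_ ?_
  · apply lcl_of hM.mat hS
    intro z hz
    rcases l z hz with h | h
    · exact Or.inl (mem_VS.2 ⟨e, mem_singleton_self _, h⟩)
    · exact Or.inr h
  · apply lcl_of hM.mat hS
    intro z hz
    rcases l' z hz with h | h
    · exact Or.inl (mem_VS.2 ⟨e, mem_singleton_self _, h⟩)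
    · exact Or.inr h

end One

/-! ### Two blocks -/

theorem lcl_two (hM : MM F s M) {e f : Finset V} (he : e ∈ M) (hf : f ∈ M) {g : Finset V}
    (l : ∀ z ∈ g, z ∈ e ∨ z ∈ f ∨ z ∉ VS M) : Lcl M {e, f} g := by
  apply lcl_of hM.mat
  · intro a ha
    simp only [mem_insert, mem_singleton] at ha
    rcases ha with rfl | rfl <;> assumption
  · intro z hz
    rcases l z hz with h | h | h
    · exact Or.inl (mem_VS.2 ⟨e, by simp, h⟩)
    · exact Or.inl (mem_VS.2 ⟨f, by simp, h⟩)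
    · exact Or.inr h

/-- three disjoint edges inside two blocks and the outside -/
theorem two_blocks (hM : MM F s M) {e f : Finset V} (he : e ∈ M) (hf : f ∈ M)
    {g g' g'' : Finset V} (hg : g ∈ F) (hg' : g' ∈ F) (hg'' : g'' ∈ F) (hd : Disjoint g g')
    (hd' : Disjoint g g'') (hd'' : Disjoint g' g'') (l : ∀ z ∈ g, z ∈ e ∨ z ∈ f ∨ z ∉ VS M)
    (l' : ∀ z ∈ g', z ∈ e ∨ z ∈ f ∨ z ∉ VS M) (l'' : ∀ z ∈ g'', z ∈ e ∨ z ∈ f ∨ z ∉ VS M) :
    False :=
  gain2 hM.hyp hM.sub hM.mat hM.card he hf hg hg' hg'' hd hd' hd'' (lcl_two hM he hf l)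
    (lcl_two hM he hf l') (lcl_two hM he hf l'')

/-- two disjoint edges avoiding `x`, `y` inside two blocks and the outside cover `E` -/
theorem two_blocks_cov (hM : MM F s M) {x y : V} (hx : x ∉ VS M) (hy : y ∉ VS M)
    {e f : Finset V} (he : e ∈ M) (hf : f ∈ M)
    (hef : e ≠ f) {g g' : Finset V} (hg : g ∈ F) (hg' : g' ∈ F) (hd : Disjoint g g')
    (l : ∀ z ∈ g, z ∈ e ∨ z ∈ f ∨ (z ∉ VS M ∧ z ≠ x ∧ z ≠ y))
    (l' : ∀ z ∈ g', z ∈ e ∨ z ∈ f ∨ (z ∉ VS M ∧ z ≠ x ∧ z ≠ y)) {z : V} (hz : z ∈ N F x y)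
    (hze : z ∈ e ∨ z ∈ f) : z ∈ g ∨ z ∈ g' := by
  have aux : ∀ g : Finset V, (∀ z ∈ g, z ∈ e ∨ z ∈ f ∨ (z ∉ VS M ∧ z ≠ x ∧ z ≠ y)) →
      Lcl M {e, f} g ∧ x ∉ g ∧ y ∉ g := by
    intro g l
    refine ⟨lcl_two hM he hf fun z hz => ?_, fun h => ?_, fun h => ?_⟩
    · rcases l z hz with h | h | h
      · exact Or.inl h
      · exact Or.inr (Or.inl h)
      · exact Or.inr (Or.inr h.1)
    · rcases l x h with h | h | h
      · exact hx (mem_VS.2 ⟨e, he, h⟩)
      · exact hx (mem_VS.2 ⟨f, hf, h⟩)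
      · exact h.2.1 rfl
    · rcases l y h with h | h | h
      · exact hy (mem_VS.2 ⟨e, he, h⟩)
      · exact hy (mem_VS.2 ⟨f, hf, h⟩)
      · exact h.2.2 rfl
  obtain ⟨a1, a2, a3⟩ := aux g l
  obtain ⟨b1, b2, b3⟩ := aux g' l'
  exact cov2 hM.hyp hM.sub hM.mat hM.card hx hy he hf hef hg hg' hd a1 b1 a2 a3 b2 b3 hz hze

section Two
variable {u v t a b c x y w w' : V}

/-- the fifteen inequalities between the points of two blocks -/
theorem MM.six (hM : MM F s M) (he : ({u, v, t} : Finset V) ∈ M)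
    (hf : ({a, b, c} : Finset V) ∈ M) (hef : ({u, v, t} : Finset V) ≠ {a, b, c}) :
    (u ≠ v ∧ u ≠ t ∧ v ≠ t) ∧ (a ≠ b ∧ a ≠ c ∧ b ≠ c) ∧ (u ≠ a ∧ u ≠ b ∧ u ≠ c) ∧
      (v ≠ a ∧ v ≠ b ∧ v ≠ c) ∧ (t ≠ a ∧ t ≠ b ∧ t ≠ c) := by
  have k : ∀ p q : V, p ∈ ({u, v, t} : Finset V) → q ∈ ({a, b, c} : Finset V) → p ≠ q :=
    fun p q hp hq => hM.neq he hf hef hp hq
  exact ⟨hM.ne3 he, hM.ne3 hf, ⟨k _ _ (by simp) (by simp), k _ _ (by simp) (by simp),
    k _ _ (by simp) (by simp)⟩, ⟨k _ _ (by simp) (by simp), k _ _ (by simp) (by simp),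
    k _ _ (by simp) (by simp)⟩, ⟨k _ _ (by simp) (by simp), k _ _ (by simp) (by simp),
    k _ _ (by simp) (by simp)⟩⟩

/-- a point outside `V(M)` is different from the six points -/
theorem six_out (he : ({u, v, t} : Finset V) ∈ M) (hf : ({a, b, c} : Finset V) ∈ M)
    (hw : w ∉ VS M) : (u ≠ w ∧ v ≠ w ∧ t ≠ w) ∧ (a ≠ w ∧ b ≠ w ∧ c ≠ w) :=
  ⟨⟨out_ne he (by simp) hw, out_ne he (by simp) hw, out_ne he (by simp) hw⟩,
    ⟨out_ne hf (by simp) hw, out_ne hf (by simp) hw, out_ne hf (by simp) hw⟩⟩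

/-- **J-structure**: two disjoint label pairs with different representatives leave two points
outside `E` -/
theorem two_labels (hM : MM F s M) (hx : x ∉ VS M) (hy : y ∉ VS M)
    (he : ({u, v, t} : Finset V) ∈ M) (hf : ({a, b, c} : Finset V) ∈ M)
    (hef : ({u, v, t} : Finset V) ≠ {a, b, c}) (hw : w ∉ VS M) (hw' : w' ∉ VS M)
    (hwx : w ≠ x) (hwy : w ≠ y) (hwx' : w' ≠ x) (hwy' : w' ≠ y) (hww : w ≠ w')
    (h1 : ({u, a, w} : Finset V) ∈ F) (h2 : ({v, b, w'} : Finset V) ∈ F) :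
    t ∉ N F x y ∧ c ∉ N F x y := by
  obtain ⟨⟨n1, n2, n3⟩, ⟨n4, n5, n6⟩, ⟨n7, n8, n9⟩, ⟨n10, n11, n12⟩, ⟨n13, n14, n15⟩⟩ :=
    hM.six he hf hef
  obtain ⟨⟨o1, o2, o3⟩, ⟨o4, o5, o6⟩⟩ := six_out he hf hw
  obtain ⟨⟨p1, p2, p3⟩, ⟨p4, p5, p6⟩⟩ := six_out he hf hw'
  have hd : Disjoint ({u, a, w} : Finset V) {v, b, w'} :=
    disj3 ⟨n1, n8, p1, n10.symm, n4, p4, o2.symm, o5.symm, hww⟩
  have key : ∀ z : V, z ∈ N F x y → (z ∈ ({u, v, t} : Finset V) ∨ z ∈ ({a, b, c} : Finset V)) →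
      z ∈ ({u, a, w} : Finset V) ∨ z ∈ ({v, b, w'} : Finset V) := by
    intro z hz hze
    refine two_blocks_cov hM hx hy he hf hef h1 h2 hd ?_ ?_ hz hze
    · intro z hz
      simp only [mem_insert, mem_singleton] at hz ⊢
      rcases hz with rfl | rfl | rfl
      · exact Or.inl (Or.inl rfl)
      · exact Or.inr (Or.inl (Or.inl rfl))
      · exact Or.inr (Or.inr ⟨hw, hwx, hwy⟩)
    · intro z hz
      simp only [mem_insert, mem_singleton] at hz ⊢
      rcases hz with rfl | rfl | rfl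
      · exact Or.inl (Or.inr (Or.inl rfl))
      · exact Or.inr (Or.inl (Or.inr (Or.inl rfl)))
      · exact Or.inr (Or.inr ⟨hw', hwx', hwy'⟩)
  constructor
  · intro hz
    have := key t hz (Or.inl (by simp))
    simp only [mem_insert, mem_singleton] at this
    rcases this with (h | h | h) | (h | h | h)
    · exact n2 h.symm
    · exact n13 h
    · exact o3 h
    · exact n3 h.symm
    · exact n14 h
    · exact p3 h
  · intro hz
    have := key c hz (Or.inr (by simp))
    simp only [mem_insert, mem_singleton] at this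
    rcases this with (h | h | h) | (h | h | h)
    · exact n9 h.symm
    · exact n5 h.symm
    · exact o6 h
    · exact n12 h.symm
    · exact n6 h.symm
    · exact p6 h

/-- a label pair `{u, a, w}` and the inner triple `{v, t, b}` leave `c` -/
theorem label_inner (hM : MM F s M) (hx : x ∉ VS M) (hy : y ∉ VS M)
    (he : ({u, v, t} : Finset V) ∈ M) (hf : ({a, b, c} : Finset V) ∈ M)
    (hef : ({u, v, t} : Finset V) ≠ {a, b, c}) (hw : w ∉ VS M)
    (hwx : w ≠ x) (hwy : w ≠ y)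
    (h1 : ({u, a, w} : Finset V) ∈ F) (h2 : ({v, t, b} : Finset V) ∈ F) :
    c ∉ N F x y := by
  intro hz
  obtain ⟨⟨n1, n2, n3⟩, ⟨n4, n5, n6⟩, ⟨n7, n8, n9⟩, ⟨n10, n11, n12⟩, ⟨n13, n14, n15⟩⟩ :=
    hM.six he hf hef
  obtain ⟨⟨o1, o2, o3⟩, ⟨o4, o5, o6⟩⟩ := six_out he hf hw
  have hd : Disjoint ({u, a, w} : Finset V) {v, t, b} :=
    disj3 ⟨n1, n2, n8, n10.symm, n13.symm, n4, o2.symm, o3.symm, o5.symm⟩
  have := two_blocks_cov hM hx hy he hf hef h1 h2 hd (by
      intro z hz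
      simp only [mem_insert, mem_singleton] at hz ⊢
      rcases hz with rfl | rfl | rfl
      · exact Or.inl (Or.inl rfl)
      · exact Or.inr (Or.inl (Or.inl rfl))
      · exact Or.inr (Or.inr ⟨hw, hwx, hwy⟩)) (by
      intro z hz
      simp only [mem_insert, mem_singleton] at hz ⊢
      rcases hz with rfl | rfl | rfl
      · exact Or.inl (Or.inr (Or.inl rfl))
      · exact Or.inl (Or.inr (Or.inr rfl))
      · exact Or.inr (Or.inl (Or.inr (Or.inl rfl)))) hz (Or.inr (by simp))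
  simp only [mem_insert, mem_singleton] at this
  rcases this with (h | h | h) | (h | h | h)
  · exact n9 h.symm
  · exact n5 h.symm
  · exact o6 h
  · exact n12 h.symm
  · exact n15 h.symm
  · exact n6 h.symm

/-- a label pair `{u, a, w}` and two cells through `x` and `y` covering the other points of the
two blocks -/
theorem label_xy (hM : MM F s M) (hxy : x ≠ y) (hx : x ∉ VS M) (hy : y ∉ VS M)
    (he : ({u, v, t} : Finset V) ∈ M) (hf : ({a, b, c} : Finset V) ∈ M)
    (hef : ({u, v, t} : Finset V) ≠ {a, b, c}) (hw : w ∉ VS M)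
    (hwx : w ≠ x) (hwy : w ≠ y)
    (h1 : ({u, a, w} : Finset V) ∈ F) (h2 : ({x, v, b} : Finset V) ∈ F)
    (h3 : ({y, t, c} : Finset V) ∈ F) : False := by
  obtain ⟨⟨n1, n2, n3⟩, ⟨n4, n5, n6⟩, ⟨n7, n8, n9⟩, ⟨n10, n11, n12⟩, ⟨n13, n14, n15⟩⟩ :=
    hM.six he hf hef
  obtain ⟨⟨o1, o2, o3⟩, ⟨o4, o5, o6⟩⟩ := six_out he hf hw
  obtain ⟨⟨x1, x2, x3⟩, ⟨x4, x5, x6⟩⟩ := six_out he hf hx
  obtain ⟨⟨y1, y2, y3⟩, ⟨y4, y5, y6⟩⟩ := six_out he hf hy
  refine two_blocks hM he hf h1 h2 h3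
    (disj3 ⟨x1, n1, n8, x4, n10.symm, n4, hwx, o2.symm, o5.symm⟩)
    (disj3 ⟨y1, n2, n9, y4, n13.symm, n5, hwy, o3.symm, o6.symm⟩)
    (disj3 ⟨hxy, x3.symm, x6.symm, y2, n3, n12, y5, n14.symm, n6⟩) ?_ ?_ ?_
  · intro z hz
    simp only [mem_insert, mem_singleton] at hz ⊢
    rcases hz with rfl | rfl | rfl
    · exact Or.inl (Or.inl rfl)
    · exact Or.inr (Or.inl (Or.inl rfl))
    · exact Or.inr (Or.inr hw)
  · intro z hz
    simp only [mem_insert, mem_singleton] at hz ⊢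
    rcases hz with rfl | rfl | rfl
    · exact Or.inr (Or.inr hx)
    · exact Or.inl (Or.inr (Or.inl rfl))
    · exact Or.inr (Or.inl (Or.inr (Or.inl rfl)))
  · intro z hz
    simp only [mem_insert, mem_singleton] at hz ⊢
    rcases hz with rfl | rfl | rfl
    · exact Or.inr (Or.inr hy)
    · exact Or.inl (Or.inr (Or.inr rfl))
    · exact Or.inr (Or.inl (Or.inr (Or.inr rfl)))

end Two

end Helper1.Res
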