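import Pool.Agent.Helper9.Res.Cls
import Pool.Agent.Helper65.Res.LA2
import Pool.Agent.Helper47.Res.LA7

/-!
# Route A, `j ≤ 1`: the data of one pair of blocks

`e = {u, v, t}`, `f = {a, b, c}` are two blocks.  All quantities of the pair are written with the
18 numbers `ms`.
-/

namespace Helper1.Res

open Finset Res12 RouteA Helper54.Res Helper9.Res

set_option linter.unusedSectionVars false

variable {V : Type} [Fintype V] [DecidableEq V]
variable {F P : Finset (Finset V)} {s j : ℕ} {x y : V}
variable {e f : Finset V} {u v t a b c : V}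

theorem ms_comm' (p q r : V) : ms F p q r = ms F p r q := by
  unfold ms
  rw [pair_comm q r]

/-- rows 1 and 2 exchanged -/
theorem pm_r12 (p : Pm P e f u v t a b c) : Pm P e f v u t a b c :=
  ⟨p.he, p.hf, p.hef, p.hv, p.hu, p.ht, p.ha, p.hb, p.hc, p.huv.symm, p.hvt, p.hut, p.hab,
    p.hac, p.hbc⟩

/-- rows 2 and 3 exchanged -/
theorem pm_r23 (p : Pm P e f u v t a b c) : Pm P e f u t v a b c :=
  ⟨p.he, p.hf, p.hef, p.hu, p.ht, p.hv, p.ha, p.hb, p.hc, p.hut, p.huv, p.hvt.symm, p.hab,
    p.hac, p.hbc⟩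

/-- columns 1 and 2 exchanged -/
theorem pm_c12 (p : Pm P e f u v t a b c) : Pm P e f u v t b a c :=
  ⟨p.he, p.hf, p.hef, p.hu, p.hv, p.ht, p.hb, p.ha, p.hc, p.huv, p.hut, p.hvt, p.hab.symm,
    p.hbc, p.hac⟩

/-- columns 2 and 3 exchanged -/
theorem pm_c23 (p : Pm P e f u v t a b c) : Pm P e f u v t a c b :=
  ⟨p.he, p.hf, p.hef, p.hu, p.hv, p.ht, p.ha, p.hc, p.hb, p.huv, p.hut, p.hvt, p.hac,
    p.hab, p.hbc.symm⟩

section
variable (h : SetUp F s j P x y)
include h

/-- `m2` of the cell `u a` -/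
theorem m2_card (p : Pm P e f u v t a b c) :
    (m2 F e f u a).card = ms F u v a + ms F u t a + ms F u a b + ms F u a c := by
  have e1 := block_eq h p.he p.hu p.hv p.ht p.huv p.hut p.hvt
  have e2 := block_eq h p.hf p.ha p.hb p.hc p.hab p.hac p.hbc
  have hM := toMM h
  have nef : ∀ {i k : V}, i ∈ e → k ∈ f → i ≠ k := fun hi hk => hM.neq p.he p.hf p.hef hi hk
  have hS : (e ∪ f) \ {u, a} = {v, t, b, c} := by
    rw [← e1, ← e2]
    ext z
    simp only [mem_sdiff, mem_union, mem_insert, mem_singleton]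
    constructor
    · tauto
    · rintro (rfl | rfl | rfl | rfl)
      · exact ⟨by tauto, fun h' => h'.elim (fun h' => p.huv h'.symm) (nef p.hv p.ha)⟩
      · exact ⟨by tauto, fun h' => h'.elim (fun h' => p.hut h'.symm) (nef p.ht p.ha)⟩
      · exact ⟨by tauto, fun h' => h'.elim (fun h' => nef p.hu p.hb h'.symm) (fun h' => p.hab h'.symm)⟩
      · exact ⟨by tauto, fun h' => h'.elim (fun h' => nef p.hu p.hc h'.symm) (fun h' => p.hac h'.symm)⟩
  unfold m2
  rw [hS, card_filter, sum_insert, sum_insert, sum_insert, sum_singleton]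
  · have k : ∀ z : V, (if ({u, a, z} : Finset V) ∉ F then 1 else 0) = ms F u a z := by
      intro z
      unfold ms
      split_ifs <;> rfl
    rw [k, k, k, k, ms_comm' u v a, ms_comm' u t a]
    omega
  · simp only [mem_singleton]
    exact p.hbc
  · simp only [mem_insert, mem_singleton, not_or]
    exact ⟨nef p.ht p.hb, nef p.ht p.hc⟩
  · simp only [mem_insert, mem_singleton, not_or]
    exact ⟨p.hvt, nef p.hv p.hb, nef p.hv p.hc⟩

/-- the codegree condition of the cell `u a` -/
theorem cod (p : Pm P e f u v t a b c) :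
    (j : ℤ) + lam F P u a ≤ (m3 F P e f u a).card + (ms F u v a + ms F u t a + ms F u a b +
      ms F u a c : ℕ) := by
  have h1 := codeg_cell h p.he p.hf p.hef p.hu p.ha
  rw [m2_card h p] at h1
  exact h1

theorem sum9 (p : Pm P e f u v t a b c) {M : Type} [AddCommMonoid M] (X : V → V → M) :
    ∑ i ∈ e, ∑ k ∈ f, X i k = (X u a + X u b + X u c) + (X v a + X v b + X v c) +
      (X t a + X t b + X t c) := by
  have e1 := block_eq h p.he p.hu p.hv p.ht p.huv p.hut p.hvt
  have e2 := block_eq h p.hf p.ha p.hb p.hc p.hab p.hac p.hbc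
  have k : ∀ i : V, ∑ k ∈ f, X i k = X i a + X i b + X i c := by
    intro i
    rw [← e2, sum_insert (by simp [p.hab, p.hac]), sum_insert (by simp [p.hbc]), sum_singleton,
      add_assoc]
  simp only [k]
  rw [← e1, sum_insert (by simp [p.huv, p.hut]), sum_insert (by simp [p.hvt]), sum_singleton,
    add_assoc, add_assoc]
  abel

/-- the missing triples of the pair of blocks -/
theorem mis18 (p : Pm P e f u v t a b c) :
    (mis F {e, f}).card = (ms F u v a + ms F u v b + ms F u v c) +
      (ms F u t a + ms F u t b + ms F u t c) + (ms F v t a + ms F v t b + ms F v t c) +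
      (ms F u a b + ms F u a c + ms F u b c) + (ms F v a b + ms F v a c + ms F v b c) +
      (ms F t a b + ms F t a c + ms F t b c) := by
  have h1 := h.sum_m2 p.he p.hf p.hef
  rw [sum9 h p, m2_card h p, m2_card h (pm_c12 p), m2_card h (pm_c12 (pm_c23 p)),
    m2_card h (pm_r12 p), m2_card h (pm_r12 (pm_c12 p)), m2_card h (pm_r12 (pm_c12 (pm_c23 p))),
    m2_card h (pm_r12 (pm_r23 p)), m2_card h (pm_r12 (pm_r23 (pm_c12 p))),
    m2_card h (pm_r12 (pm_r23 (pm_c12 (pm_c23 p))))] at h1
  have k1 := ms_comm (F := F) v u a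
  have k2 := ms_comm (F := F) v u b
  have k3 := ms_comm (F := F) v u c
  have k4 := ms_comm (F := F) t u a
  have k5 := ms_comm (F := F) t u b
  have k6 := ms_comm (F := F) t u c
  have k7 := ms_comm (F := F) t v a
  have k8 := ms_comm (F := F) t v b
  have k9 := ms_comm (F := F) t v c
  have l1 := ms_comm' (F := F) u b a
  have l2 := ms_comm' (F := F) u c a
  have l3 := ms_comm' (F := F) u c b
  have l4 := ms_comm' (F := F) v b a
  have l5 := ms_comm' (F := F) v c a
  have l6 := ms_comm' (F := F) v c b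
  have l7 := ms_comm' (F := F) t b a
  have l8 := ms_comm' (F := F) t c a
  have l9 := ms_comm' (F := F) t c b
  omega

/-- inner kills of a label -/
theorem kill4 (p : Pm P e f u v t a b c) (hl : (lb F P x y u a).Nonempty) :
    1 ≤ ms F v b c + ep F x y t ∧ 1 ≤ ms F t b c + ep F x y v ∧
      1 ≤ ms F v t b + ep F x y c ∧ 1 ≤ ms F v t c + ep F x y b := by
  have key : ∀ {e f : Finset V} {u v t a b c : V}, Pm P e f u v t a b c →
      (lb F P x y u a).Nonempty → 1 ≤ ms F v t b + ep F x y c := by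
    intro e f u v t a b c p hl
    obtain ⟨w, hw⟩ := hl
    obtain ⟨w1, w2, w3, w4⟩ := mem_lb.1 hw
    have e1 := block_eq h p.he p.hu p.hv p.ht p.huv p.hut p.hvt
    have e2 := block_eq h p.hf p.ha p.hb p.hc p.hab p.hac p.hbc
    by_contra hcon
    push Not at hcon
    have k1 : ms F v t b = 0 := by omega
    have k2 : ep F x y c = 0 := by omega
    have := label_inner (toMM h) h.avx h.avy (u := u) (v := v) (t := t) (a := a) (b := b) (c := c)
      (by rw [e1]; exact p.he) (by rw [e2]; exact p.hf) (by rw [e1, e2]; exact p.hef) w2 w3 w4 w1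
      (mem_of_ms k1)
    unfold ep at k2
    rw [if_neg this] at k2
    omega
  have hl' : (lb F P x y a u).Nonempty := by rw [Helper9.Res.lb_comm]; exact hl
  have k1 := key p hl
  have k2 := key (pm_c23 p) hl
  have k3 := key p.tr hl'
  have k4 := key (pm_c23 p.tr) hl'
  have r : ∀ z : V, ms F b c z = ms F z b c := by
    intro z
    unfold ms
    congr 2
    ext q
    simp only [mem_insert, mem_singleton]
    tauto
  rw [r] at k3 k4
  exact ⟨k3, k4, k1, k2⟩

/-- types of the pair in terms of `ep` -/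
theorem ty_pair (p : Pm P e f u v t a b c) :
    ty F x y e = ep F x y u + ep F x y v + ep F x y t ∧
      ty F x y f = ep F x y a + ep F x y b + ep F x y c := by
  have e1 := block_eq h p.he p.hu p.hv p.ht p.huv p.hut p.hvt
  have e2 := block_eq h p.hf p.ha p.hb p.hc p.hab p.hac p.hbc
  rw [ty_eq, ty_eq, ← e1, ← e2, sum3 p.huv p.hut p.hvt, sum3 p.hab p.hac p.hbc]
  exact ⟨rfl, rfl⟩

end

end Helper1.Res
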