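import Pool.Agent.Helper1.Res.J01a

/-!
# Route A, `j ≤ 1`: pairs of blocks with a label
-/

namespace Helper1.Res

open Finset Res12 RouteA Helper54.Res Helper9.Res

set_option linter.unusedSectionVars false

variable {V : Type} [Fintype V] [DecidableEq V]
variable {F P : Finset (Finset V)} {s j : ℕ} {x y : V}
variable {e f : Finset V} {u v t a b c : V}

/-- three times the term of a pair of blocks -/
def Q3 (F P : Finset (Finset V)) (e f : Finset V) : ℤ :=
  3 * ∑ i ∈ e, ∑ k ∈ f, lam F P i k - ∑ i ∈ e, ∑ k ∈ f, ((m3 F P e f i k).card : ℤ) -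
    3 * ((mis F {e, f}).card : ℤ)

theorem Q3_comm (e f : Finset V) : Q3 F P e f = Q3 F P f e := by
  unfold Q3
  rw [sum_comm, sum_comm (s := e) (t := f) (f := fun i k => ((m3 F P e f i k).card : ℤ)),
    pair_comm e f]
  simp only [lam_comm F P, m3_comm e f]

section
variable (h : SetUp F s j P x y)
include h

theorem Q3_eq (p : Pm P e f u v t a b c) :
    Q3 F P e f = 3 * ((lam F P u a + lam F P u b + lam F P u c) +
      (lam F P v a + lam F P v b + lam F P v c) + (lam F P t a + lam F P t b + lam F P t c)) -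
      (((m3 F P e f u a).card + (m3 F P e f u b).card + (m3 F P e f u c).card : ℤ) +
      ((m3 F P e f v a).card + (m3 F P e f v b).card + (m3 F P e f v c).card) +
      ((m3 F P e f t a).card + (m3 F P e f t b).card + (m3 F P e f t c).card)) -
      3 * (((ms F u v a + ms F u v b + ms F u v c) +
      (ms F u t a + ms F u t b + ms F u t c) + (ms F v t a + ms F v t b + ms F v t c) +
      (ms F u a b + ms F u a c + ms F u b c) + (ms F v a b + ms F v a c + ms F v b c) +
      (ms F t a b + ms F t a c + ms F t b c) : ℕ) : ℤ) := by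
  unfold Q3
  rw [sum9 h p, sum9 h p, mis18 h p]

theorem lam_nolabel (hl : lb F P x y u a = ∅) : lam F P u a ≤ 0 := by
  have := dW_le_lb h u a
  rw [hl, card_empty] at this
  unfold lam
  omega

theorem lam_onelabel (hl : (lb F P x y u a).card ≤ 1) : lam F P u a ≤ 1 := by
  have := dW_le_lb h u a
  unfold lam
  omega

/-- in a pair of blocks of types `(0,0)`, `(0,1)` two disjoint labelled cells carry the same
label -/
theorem same_lab (hT : ty F x y e + ty F x y f ≤ 1) (p : Pm P e f u v t a b c) {w w' : V}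
    (hw : w ∈ lb F P x y u a) (hw' : w' ∈ lb F P x y v b) : w = w' := by
  by_contra hww
  obtain ⟨h1, h2⟩ := zero_J h p hw hw' hww
  obtain ⟨k1, k2⟩ := ty_pair h p
  have e1 : ep F x y t = 1 := by unfold ep; rw [if_neg h1]
  have e2 : ep F x y c = 1 := by unfold ep; rw [if_neg h2]
  omega

theorem lab_one (hT : ty F x y e + ty F x y f ≤ 1) (p : Pm P e f u v t a b c)
    (hw : (lb F P x y v b).Nonempty) : (lb F P x y u a).card ≤ 1 := by
  obtain ⟨w', hw'⟩ := hw
  rw [card_le_one]
  intro w1 h1 w2 h2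
  rw [same_lab h hT p h1 hw', same_lab h hT p h2 hw']

/-- the nine cells in canonical names: codegree conditions -/
theorem cod9 (p : Pm P e f u v t a b c) :
    ((j : ℤ) + lam F P u a ≤ (m3 F P e f u a).card + (ms F u v a + ms F u t a + ms F u a b +
      ms F u a c : ℕ)) ∧
    ((j : ℤ) + lam F P u b ≤ (m3 F P e f u b).card + (ms F u v b + ms F u t b + ms F u a b +
      ms F u b c : ℕ)) ∧
    ((j : ℤ) + lam F P u c ≤ (m3 F P e f u c).card + (ms F u v c + ms F u t c + ms F u a c +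
      ms F u b c : ℕ)) ∧
    ((j : ℤ) + lam F P v a ≤ (m3 F P e f v a).card + (ms F u v a + ms F v t a + ms F v a b +
      ms F v a c : ℕ)) ∧
    ((j : ℤ) + lam F P t a ≤ (m3 F P e f t a).card + (ms F u t a + ms F v t a + ms F t a b +
      ms F t a c : ℕ)) := by
  have c1 := cod h p
  have c2 := cod h (pm_c12 p)
  have c3 := cod h (pm_c12 (pm_c23 p))
  have c4 := cod h (pm_r12 p)
  have c5 := cod h (pm_r12 (pm_r23 p))
  have l1 := ms_comm' (F := F) u b a
  have l2 := ms_comm' (F := F) u c a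
  have l3 := ms_comm' (F := F) u c b
  have k1 := ms_comm (F := F) v u a
  have k4 := ms_comm (F := F) t u a
  have k7 := ms_comm (F := F) t v a
  refine ⟨c1, ?_, ?_, ?_, ?_⟩
  · omega
  · omega
  · omega
  · omega

/-- one labelled cell -/
theorem alpha1 (hs : 3 ≤ s) (hj : j ≤ 1) (hT : ty F x y e + ty F x y f ≤ 1)
    (p : Pm P e f u v t a b c) (hua : (lb F P x y u a).Nonempty)
    (hub : lb F P x y u b = ∅) (huc : lb F P x y u c = ∅)
    (hva : lb F P x y v a = ∅) (hvb : lb F P x y v b = ∅) (hvc : lb F P x y v c = ∅)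
    (hta : lb F P x y t a = ∅) (htb : lb F P x y t b = ∅) (htc : lb F P x y t c = ∅) :
    Q3 F P e f ≤ -18 := by
  rw [Q3_eq h p]
  obtain ⟨c1, c2, c3, c4, c5⟩ := cod9 h p
  have l1 := Helper9.Res.lam_le h u a
  have l2 := lam_nolabel h hub
  have l3 := lam_nolabel h huc
  have l4 := lam_nolabel h hva
  have l5 := lam_nolabel h hta
  have d1 := lam_two_le h p hua hvb htc
  have d2 := lam_two_le h (pm_c23 p) hua hvc htb
  have q1 := m3_pair h p hua
  have q2 := m3_pair h (pm_c23 p) hua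
  obtain ⟨k1, k2, k3, k4⟩ := kill4 h p hua
  obtain ⟨t1, t2⟩ := ty_pair h p
  push_cast at *
  zify at *
  linarith

/-- two labelled cells in a row -/
theorem alpha2 (hs : 3 ≤ s) (hj : j ≤ 1) (hT : ty F x y e + ty F x y f ≤ 1)
    (p : Pm P e f u v t a b c) (hua : (lb F P x y u a).Nonempty)
    (hub : (lb F P x y u b).Nonempty) (huc : lb F P x y u c = ∅)
    (hva : lb F P x y v a = ∅) (hvb : lb F P x y v b = ∅) (hvc : lb F P x y v c = ∅)
    (hta : lb F P x y t a = ∅) (htb : lb F P x y t b = ∅) (htc : lb F P x y t c = ∅) :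
    Q3 F P e f ≤ -18 := by
  rw [Q3_eq h p]
  obtain ⟨c1, c2, c3, c4, c5⟩ := cod9 h p
  have l1 := Helper9.Res.lam_le h u a
  have l2 := Helper9.Res.lam_le h u b
  have l3 := lam_nolabel h huc
  have l4 := lam_nolabel h hva
  have l5 := lam_nolabel h hta
  have d1 := lam_two_le h p hua hvb htc
  have d2 := lam_two_le h (pm_c23 p) hua hvc htb
  have q1 := m3_pair h p hua
  have q2 := m3_pair h (pm_c23 p) hua
  obtain ⟨k1, k2, k3, k4⟩ := kill4 h p hua
  obtain ⟨k5, k6, k7, k8⟩ := kill4 h (pm_c12 p) hub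
  obtain ⟨t1, t2⟩ := ty_pair h p
  clear c4 c5
  push_cast at *
  zify at *
  linarith

/-- three labelled cells in a row -/
theorem alpha3 (hs : 3 ≤ s) (hj : j ≤ 1) (hT : ty F x y e + ty F x y f ≤ 1)
    (p : Pm P e f u v t a b c) (hua : (lb F P x y u a).Nonempty)
    (hub : (lb F P x y u b).Nonempty) (huc : (lb F P x y u c).Nonempty)
    (hva : lb F P x y v a = ∅) (hvb : lb F P x y v b = ∅) (hvc : lb F P x y v c = ∅)
    (hta : lb F P x y t a = ∅) (htb : lb F P x y t b = ∅) (htc : lb F P x y t c = ∅) :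
    Q3 F P e f ≤ -18 := by
  rw [Q3_eq h p]
  obtain ⟨c1, c2, c3, c4, c5⟩ := cod9 h p
  have l1 := Helper9.Res.lam_le h u a
  have l2 := Helper9.Res.lam_le h u b
  have l3 := Helper9.Res.lam_le h u c
  have d1 := lam_two_le h p hua hvb htc
  have d2 := lam_two_le h (pm_c23 p) hua hvc htb
  have d3 := lam_two_le h (pm_c12 p) hub hva htc
  have d4 := lam_two_le h (pm_c23 (pm_c12 p)) hub hvc hta
  have d5 := lam_two_le h (pm_c12 (pm_c23 p)) huc hva htb
  have d6 := lam_two_le h (pm_c23 (pm_c12 (pm_c23 p))) huc hvb hta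
  have q1 := m3_pair h p hua
  have q2 := m3_pair h (pm_c23 p) hua
  have q3 := m3_pair h (pm_c12 p) hub
  have q4 := m3_pair h (pm_c23 (pm_c12 p)) hub
  have q5 := m3_pair h (pm_c12 (pm_c23 p)) huc
  have q6 := m3_pair h (pm_c23 (pm_c12 (pm_c23 p))) huc
  obtain ⟨k1, k2, k3, k4⟩ := kill4 h p hua
  obtain ⟨k5, k6, k7, k8⟩ := kill4 h (pm_c12 p) hub
  obtain ⟨k9, k10, k11, k12⟩ := kill4 h (pm_c12 (pm_c23 p)) huc
  obtain ⟨t1, t2⟩ := ty_pair h p
  clear c4 c5
  push_cast at *
  zify at *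
  linarith

/-- a big cell with two arms -/
theorem beta1 (hs : 3 ≤ s) (hj : j ≤ 1) (hT : ty F x y e + ty F x y f ≤ 1)
    (p : Pm P e f u v t a b c) (hua : (lb F P x y u a).Nonempty)
    (hub : (lb F P x y u b).Nonempty) (hva : (lb F P x y v a).Nonempty)
    (hub1 : (lb F P x y u b).card ≤ 1) (huc1 : (lb F P x y u c).card ≤ 1)
    (hva1 : (lb F P x y v a).card ≤ 1) (hta1 : (lb F P x y t a).card ≤ 1)
    (hvb : lb F P x y v b = ∅) (hvc : lb F P x y v c = ∅)
    (htb : lb F P x y t b = ∅) (htc : lb F P x y t c = ∅) :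
    Q3 F P e f ≤ -18 := by
  rw [Q3_eq h p]
  obtain ⟨c1, c2, c3, c4, c5⟩ := cod9 h p
  have l1 := Helper9.Res.lam_le h u a
  have l2 := lam_onelabel h hub1
  have l3 := lam_onelabel h huc1
  have l4 := lam_onelabel h hva1
  have l5 := lam_onelabel h hta1
  have d1 := lam_two_le h p hua hvb htc
  have d2 := lam_two_le h (pm_c23 p) hua hvc htb
  have q1 := m3_pair h p hua
  have q2 := m3_pair h (pm_c23 p) hua
  obtain ⟨k1, k2, k3, k4⟩ := kill4 h p hua
  obtain ⟨k5, k6, k7, k8⟩ := kill4 h (pm_c12 p) hub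
  obtain ⟨k9, k10, k11, k12⟩ := kill4 h (pm_r12 p) hva
  obtain ⟨t1, t2⟩ := ty_pair h p
  push_cast at *
  zify at *
  linarith

end

end Helper1.Res
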