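import Pool.Agent.Helper1.Res.J01b

/-!
# Route A, `j ≤ 1`: pairs of blocks with a label, the case analysis, and pairs without labels
-/

namespace Helper1.Res

open Finset Res12 RouteA Helper54.Res Helper9.Res

set_option linter.unusedSectionVars false
set_option linter.unusedVariables false

variable {V : Type} [Fintype V] [DecidableEq V]
variable {F P : Finset (Finset V)} {s j : ℕ} {x y : V}
variable {e f : Finset V} {u v t a b c : V}

section
variable (h : SetUp F s j P x y)
include h

theorem dW_three (hl : (lb F P x y u a).card ≤ 1) : dW F P u a ≤ 3 := by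
  have := dW_le_lb h u a
  omega

/-- cells with at most one label: the sum over a perfect matching is not positive -/
theorem S_nonpos (p : Pm P e f u v t a b c)
    (hall : ∀ i ∈ e, ∀ k ∈ f, (lb F P x y i k).card ≤ 1) :
    lam F P u a + lam F P v b + lam F P t c ≤ 0 := by
  have k1 := dW_three h (hall u p.hu a p.ha)
  have k2 := dW_three h (hall v p.hv b p.hb)
  have k3 := dW_three h (hall t p.ht c p.hc)
  rcases cls h p with ⟨h1, h2⟩ | (k | k | k | k | k | k) | (k | k | k)
  · exact h1
  · obtain ⟨-, g2, -⟩ := k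
    omega
  · obtain ⟨-, g2, -⟩ := k
    omega
  · obtain ⟨-, g2, -⟩ := k
    omega
  · obtain ⟨-, g2, -⟩ := k
    omega
  · obtain ⟨-, g2, -⟩ := k
    omega
  · obtain ⟨-, g2, -⟩ := k
    omega
  · obtain ⟨-, -, -, -, g5, -⟩ := k
    omega
  · obtain ⟨-, -, -, -, g5, -⟩ := k
    omega
  · obtain ⟨-, -, -, -, g5, -⟩ := k
    omega

/-- two disjoint labelled cells, all cells with at most one label -/
theorem beta2 (hs : 3 ≤ s) (hj : j ≤ 1) (hT : ty F x y e + ty F x y f ≤ 1)
    (p : Pm P e f u v t a b c) (hua : (lb F P x y u a).Nonempty)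
    (hvb : (lb F P x y v b).Nonempty)
    (hall : ∀ i ∈ e, ∀ k ∈ f, (lb F P x y i k).card ≤ 1) :
    Q3 F P e f ≤ -18 := by
  rw [Q3_eq h p]
  have d1 := S_nonpos h p hall
  have d2 := S_nonpos h (pm_c23 p) hall
  have d3 := S_nonpos h (pm_c12 p) hall
  have d4 := S_nonpos h (pm_c23 (pm_c12 p)) hall
  have d5 := S_nonpos h (pm_c12 (pm_c23 p)) hall
  have d6 := S_nonpos h (pm_c23 (pm_c12 (pm_c23 p))) hall
  obtain ⟨k1, k2, k3, k4⟩ := kill4 h p hua
  obtain ⟨k5, k6, k7, k8⟩ := kill4 h p.swap hvb
  obtain ⟨t1, t2⟩ := ty_pair h p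
  push_cast at *
  zify at *
  linarith

/-- the arms in the row of `u` carry labels, or no cell outside the row does -/
theorem pair_row_case (hs : 3 ≤ s) (hj : j ≤ 1) (hT : ty F x y e + ty F x y f ≤ 1)
    (p : Pm P e f u v t a b c) (hua : (lb F P x y u a).Nonempty)
    (hva : lb F P x y v a = ∅) (hvb : lb F P x y v b = ∅) (hvc : lb F P x y v c = ∅)
    (hta : lb F P x y t a = ∅) (htb : lb F P x y t b = ∅) (htc : lb F P x y t c = ∅) :
    Q3 F P e f ≤ -18 := by
  by_cases hub : lb F P x y u b = ∅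
  · by_cases huc : lb F P x y u c = ∅
    · exact alpha1 h hs hj hT p hua hub huc hva hvb hvc hta htb htc
    · exact alpha2 h hs hj hT (pm_c23 p) hua (nonempty_iff_ne_empty.2 huc) hub hva hvc hvb hta
        htc htb
  · by_cases huc : lb F P x y u c = ∅
    · exact alpha2 h hs hj hT p hua (nonempty_iff_ne_empty.2 hub) huc hva hvb hvc hta htb htc
    · exact alpha3 h hs hj hT p hua (nonempty_iff_ne_empty.2 hub) (nonempty_iff_ne_empty.2 huc)
        hva hvb hvc hta htb htc

/-- a big cell `u a` -/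
theorem pair_big (hs : 3 ≤ s) (hj : j ≤ 1) (hT : ty F x y e + ty F x y f ≤ 1)
    (p : Pm P e f u v t a b c) (hua : 2 ≤ (lb F P x y u a).card) :
    Q3 F P e f ≤ -18 := by
  have hne : (lb F P x y u a).Nonempty := by
    rw [← card_pos]
    omega
  -- cells disjoint from `u a` have no labels
  have out : ∀ {v t b c : V}, Pm P e f u v t a b c → lb F P x y v b = ∅ := by
    intro v t b c p
    by_contra hcon
    have := lab_one h hT p (nonempty_iff_ne_empty.2 hcon)
    omega
  have hvb := out p
  have hvc := out (pm_c23 p)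
  have htb := out (pm_r23 p)
  have htc := out (pm_r23 (pm_c23 p))
  -- row arm and column arm both labelled
  have cross : ∀ {v t b c : V}, Pm P e f u v t a b c → (lb F P x y u b).Nonempty →
      (lb F P x y v a).Nonempty → Q3 F P e f ≤ -18 := by
    intro v t b c p hub hva
    have q1 : (lb F P x y u b).card ≤ 1 := lab_one h hT (pm_c12 p) hva
    have q2 : (lb F P x y u c).card ≤ 1 := lab_one h hT (pm_c12 (pm_c23 p)) hva
    have q3 : (lb F P x y v a).card ≤ 1 := lab_one h hT (pm_r12 p) hub
    have q4 : (lb F P x y t a).card ≤ 1 := lab_one h hT (pm_r12 (pm_r23 p)) hub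
    exact beta1 h hs hj hT p hne hub hva q1 q2 q3 q4 (out p) (out (pm_c23 p))
      (out (pm_r23 p)) (out (pm_r23 (pm_c23 p)))
  by_cases hva : lb F P x y v a = ∅
  · by_cases hta : lb F P x y t a = ∅
    · exact pair_row_case h hs hj hT p hne hva hvb hvc hta htb htc
    · by_cases hub : lb F P x y u b = ∅
      · by_cases huc : lb F P x y u c = ∅
        · rw [Q3_comm]
          refine pair_row_case h hs hj (by omega) p.tr ?_ ?_ ?_ ?_ ?_ ?_ ?_ <;>
            rw [Helper9.Res.lb_comm] <;> assumption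
        · exact cross (pm_r23 (pm_c23 p)) (nonempty_iff_ne_empty.2 huc)
            (nonempty_iff_ne_empty.2 hta)
      · exact cross (pm_r23 p) (nonempty_iff_ne_empty.2 hub) (nonempty_iff_ne_empty.2 hta)
  · by_cases hub : lb F P x y u b = ∅
    · by_cases huc : lb F P x y u c = ∅
      · rw [Q3_comm]
        refine pair_row_case h hs hj (by omega) p.tr ?_ ?_ ?_ ?_ ?_ ?_ ?_ <;>
          rw [Helper9.Res.lb_comm] <;> assumption
      · exact cross (pm_c23 p) (nonempty_iff_ne_empty.2 huc) (nonempty_iff_ne_empty.2 hva)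
    · exact cross p (nonempty_iff_ne_empty.2 hub) (nonempty_iff_ne_empty.2 hva)

/-- the cells of the pair in coordinates -/
theorem cell_cases (p : Pm P e f u v t a b c) {i k : V} (hi : i ∈ e) (hk : k ∈ f) :
    (i = u ∨ i = v ∨ i = t) ∧ (k = a ∨ k = b ∨ k = c) := by
  have e1 := block_eq h p.he p.hu p.hv p.ht p.huv p.hut p.hvt
  have e2 := block_eq h p.hf p.ha p.hb p.hc p.hab p.hac p.hbc
  rw [← e1] at hi
  rw [← e2] at hk
  simp only [mem_insert, mem_singleton] at hi hk
  exact ⟨hi, hk⟩

/-- coordinates with a given cell in front -/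
theorem exists_pm (he : e ∈ P) (hf : f ∈ P) (hef : e ≠ f) {i k : V} (hi : i ∈ e) (hk : k ∈ f) :
    ∃ v t b c : V, Pm P e f i v t k b c := by
  obtain ⟨v, t, h1, h2, h3, h4, -⟩ := block_at h he hi
  obtain ⟨b, c, g1, g2, g3, g4, -⟩ := block_at h hf hk
  refine ⟨v, t, b, c, he, hf, hef, hi, ?_, ?_, hk, ?_, ?_, h2, h3, h4, g2, g3, g4⟩
  · rw [h1]; simp
  · rw [h1]; simp
  · rw [g1]; simp
  · rw [g1]; simp

/-- **a pair of blocks with a label** -/
theorem pair_label (hs : 3 ≤ s) (hj : j ≤ 1) (hT : ty F x y e + ty F x y f ≤ 1)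
    (he : e ∈ P) (hf : f ∈ P) (hef : e ≠ f) {i k : V} (hi : i ∈ e) (hk : k ∈ f)
    (hl : (lb F P x y i k).Nonempty) : Q3 F P e f ≤ -18 := by
  by_cases hbig : ∃ i ∈ e, ∃ k ∈ f, 2 ≤ (lb F P x y i k).card
  · obtain ⟨i, hi, k, hk, h2⟩ := hbig
    obtain ⟨v, t, b, c, p⟩ := exists_pm h he hf hef hi hk
    exact pair_big h hs hj hT p h2
  · have hall : ∀ i ∈ e, ∀ k ∈ f, (lb F P x y i k).card ≤ 1 := by
      intro i hi k hk
      by_contra hcon
      exact hbig ⟨i, hi, k, hk, by omega⟩
    by_cases hd : ∃ u v t a b c : V, Pm P e f u v t a b c ∧ (lb F P x y u a).Nonempty ∧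
        (lb F P x y v b).Nonempty
    · obtain ⟨u, v, t, a, b, c, p, h1, h2⟩ := hd
      exact beta2 h hs hj hT p h1 h2 hall
    · obtain ⟨v, t, b, c, p⟩ := exists_pm h he hf hef hi hk
      -- cells disjoint from a labelled cell have no labels
      have out : ∀ {u v t a b c : V}, Pm P e f u v t a b c → (lb F P x y u a).Nonempty →
          lb F P x y v b = ∅ := by
        intro u v t a b c p hua
        by_contra hcon
        exact hd ⟨u, v, t, a, b, c, p, hua, nonempty_iff_ne_empty.2 hcon⟩
      have hvb := out p hl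
      have hvc := out (pm_c23 p) hl
      have htb := out (pm_r23 p) hl
      have htc := out (pm_r23 (pm_c23 p)) hl
      by_cases hub : lb F P x y i b = ∅
      · by_cases huc : lb F P x y i c = ∅
        · rw [Q3_comm]
          refine pair_row_case h hs hj (by omega) p.tr ?_ ?_ ?_ ?_ ?_ ?_ ?_ <;>
            rw [Helper9.Res.lb_comm] <;> assumption
        · have hva := out (pm_c12 (pm_c23 p)) (nonempty_iff_ne_empty.2 huc)
          have hta := out (pm_r23 (pm_c12 (pm_c23 p))) (nonempty_iff_ne_empty.2 huc)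
          exact pair_row_case h hs hj hT p hl hva hvb hvc hta htb htc
      · have hva := out (pm_c12 p) (nonempty_iff_ne_empty.2 hub)
        have hta := out (pm_r23 (pm_c12 p)) (nonempty_iff_ne_empty.2 hub)
        exact pair_row_case h hs hj hT p hl hva hvb hvc hta htb htc

end

end Helper1.Res
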