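import Mathlib
import Pool.Agent.Helper1.Res.LA4

/-!
# Project RES (MP_d365ae_co): exchanges in three blocks
-/

namespace Helper1.Res

open Finset Res12

set_option linter.unusedSectionVars false

variable {V : Type} [Fintype V] [DecidableEq V]
variable {F M : Finset (Finset V)} {s : ℕ}

theorem lcl_three (hM : MM F s M) {e f k : Finset V} (he : e ∈ M) (hf : f ∈ M) (hk : k ∈ M)
    {g : Finset V} (l : ∀ z ∈ g, z ∈ e ∨ z ∈ f ∨ z ∈ k ∨ z ∉ VS M) : Lcl M {e, f, k} g := by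
  apply lcl_of hM.mat
  · intro a ha
    simp only [mem_insert, mem_singleton] at ha
    rcases ha with rfl | rfl | rfl <;> assumption
  · intro z hz
    rcases l z hz with h | h | h | h
    · exact Or.inl (mem_VS.2 ⟨e, by simp, h⟩)
    · exact Or.inl (mem_VS.2 ⟨f, by simp, h⟩)
    · exact Or.inl (mem_VS.2 ⟨k, by simp, h⟩)
    · exact Or.inr h

/-- four disjoint edges inside three blocks and the outside -/
theorem three_blocks (hM : MM F s M) {e f k : Finset V} (he : e ∈ M) (hf : f ∈ M) (hk : k ∈ M)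
    {g1 g2 g3 g4 : Finset V} (h1 : g1 ∈ F) (h2 : g2 ∈ F) (h3 : g3 ∈ F) (h4 : g4 ∈ F)
    (d12 : Disjoint g1 g2) (d13 : Disjoint g1 g3) (d14 : Disjoint g1 g4)
    (d23 : Disjoint g2 g3) (d24 : Disjoint g2 g4) (d34 : Disjoint g3 g4)
    (l1 : ∀ z ∈ g1, z ∈ e ∨ z ∈ f ∨ z ∈ k ∨ z ∉ VS M)
    (l2 : ∀ z ∈ g2, z ∈ e ∨ z ∈ f ∨ z ∈ k ∨ z ∉ VS M)
    (l3 : ∀ z ∈ g3, z ∈ e ∨ z ∈ f ∨ z ∈ k ∨ z ∉ VS M)
    (l4 : ∀ z ∈ g4, z ∈ e ∨ z ∈ f ∨ z ∈ k ∨ z ∉ VS M) : False :=
  gain3 hM.hyp hM.sub hM.mat hM.card he hf hk h1 h2 h3 h4 d12 d13 d14 d23 d24 d34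
    (lcl_three hM he hf hk l1) (lcl_three hM he hf hk l2) (lcl_three hM he hf hk l3)
    (lcl_three hM he hf hk l4)

/-- three disjoint edges avoiding `x`, `y` inside three blocks and the outside cover `E` -/
theorem three_blocks_cov (hM : MM F s M) {x y : V} (hx : x ∉ VS M) (hy : y ∉ VS M)
    {e f k : Finset V} (he : e ∈ M) (hf : f ∈ M) (hk : k ∈ M)
    (hef : e ≠ f) (hek : e ≠ k) (hfk : f ≠ k) {g1 g2 g3 : Finset V} (h1 : g1 ∈ F)
    (h2 : g2 ∈ F) (h3 : g3 ∈ F) (d12 : Disjoint g1 g2) (d13 : Disjoint g1 g3)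
    (d23 : Disjoint g2 g3)
    (l1 : ∀ z ∈ g1, z ∈ e ∨ z ∈ f ∨ z ∈ k ∨ (z ∉ VS M ∧ z ≠ x ∧ z ≠ y))
    (l2 : ∀ z ∈ g2, z ∈ e ∨ z ∈ f ∨ z ∈ k ∨ (z ∉ VS M ∧ z ≠ x ∧ z ≠ y))
    (l3 : ∀ z ∈ g3, z ∈ e ∨ z ∈ f ∨ z ∈ k ∨ (z ∉ VS M ∧ z ≠ x ∧ z ≠ y))
    {z : V} (hz : z ∈ N F x y) (hze : z ∈ e ∨ z ∈ f ∨ z ∈ k) : z ∈ g1 ∨ z ∈ g2 ∨ z ∈ g3 := by
  have aux : ∀ g : Finset V,
      (∀ z ∈ g, z ∈ e ∨ z ∈ f ∨ z ∈ k ∨ (z ∉ VS M ∧ z ≠ x ∧ z ≠ y)) →
      Lcl M {e, f, k} g ∧ x ∉ g ∧ y ∉ g := by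
    intro g l
    refine ⟨lcl_three hM he hf hk fun z hz => ?_, fun h => ?_, fun h => ?_⟩
    · rcases l z hz with h | h | h | h
      · exact Or.inl h
      · exact Or.inr (Or.inl h)
      · exact Or.inr (Or.inr (Or.inl h))
      · exact Or.inr (Or.inr (Or.inr h.1))
    · rcases l x h with h | h | h | h
      · exact hx (mem_VS.2 ⟨e, he, h⟩)
      · exact hx (mem_VS.2 ⟨f, hf, h⟩)
      · exact hx (mem_VS.2 ⟨k, hk, h⟩)
      · exact h.2.1 rfl
    · rcases l y h with h | h | h | h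
      · exact hy (mem_VS.2 ⟨e, he, h⟩)
      · exact hy (mem_VS.2 ⟨f, hf, h⟩)
      · exact hy (mem_VS.2 ⟨k, hk, h⟩)
      · exact h.2.2 rfl
  obtain ⟨a1, a2, a3⟩ := aux g1 l1
  obtain ⟨b1, b2, b3⟩ := aux g2 l2
  obtain ⟨c1, c2, c3⟩ := aux g3 l3
  exact cov3 hM.hyp hM.sub hM.mat hM.card hx hy he hf hk hef hek hfk h1 h2 h3 d12 d13 d23
    a1 b1 c1 a2 a3 b2 b3 c2 c3 hz hze

/-- **The conflict lemma**: the label pair `{u, a, w}` and the cross triples `{v, b, p}`,
`{t, c, q}` leave the third point `r` of the third block. -/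
theorem conflict (hM : MM F s M) {x y : V} (hx : x ∉ VS M) (hy : y ∉ VS M)
    {e f k : Finset V} (he : e ∈ M) (hf : f ∈ M) (hk : k ∈ M)
    (hef : e ≠ f) (hek : e ≠ k) (hfk : f ≠ k) {u v t a b c p q r w : V}
    (hu : u ∈ e) (hv : v ∈ e) (ht : t ∈ e) (ha : a ∈ f) (hb : b ∈ f) (hc : c ∈ f)
    (hp : p ∈ k) (hq : q ∈ k) (hr : r ∈ k) (huv : u ≠ v) (hut : u ≠ t) (hvt : v ≠ t)
    (hab : a ≠ b) (hac : a ≠ c) (hbc : b ≠ c) (hpq : p ≠ q) (hpr : p ≠ r) (hqr : q ≠ r)
    (hw : w ∉ VS M) (hwx : w ≠ x) (hwy : w ≠ y) (h1 : ({u, a, w} : Finset V) ∈ F)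
    (h2 : ({v, b, p} : Finset V) ∈ F) (h3 : ({t, c, q} : Finset V) ∈ F) : r ∉ N F x y := by
  intro hz
  have nef : ∀ {i j : V}, i ∈ e → j ∈ f → i ≠ j := fun hi hj => hM.neq he hf hef hi hj
  have nek : ∀ {i j : V}, i ∈ e → j ∈ k → i ≠ j := fun hi hj => hM.neq he hk hek hi hj
  have nfk : ∀ {i j : V}, i ∈ f → j ∈ k → i ≠ j := fun hi hj => hM.neq hf hk hfk hi hj
  have oe : ∀ {i : V}, i ∈ e → i ≠ w := fun hi => out_ne he hi hw
  have of : ∀ {i : V}, i ∈ f → i ≠ w := fun hi => out_ne hf hi hw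
  have ok : ∀ {i : V}, i ∈ k → i ≠ w := fun hi => out_ne hk hi hw
  have := three_blocks_cov hM hx hy he hf hk hef hek hfk h1 h2 h3
    (disj3 ⟨huv, nef hu hb, nek hu hp, (nef hv ha).symm, hab, nfk ha hp, (oe hv).symm,
      (of hb).symm, (ok hp).symm⟩)
    (disj3 ⟨hut, nef hu hc, nek hu hq, (nef ht ha).symm, hac, nfk ha hq, (oe ht).symm,
      (of hc).symm, (ok hq).symm⟩)
    (disj3 ⟨hvt, nef hv hc, nek hv hq, (nef ht hb).symm, hbc, nfk hb hq, (nek ht hp).symm,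
      (nfk hc hp).symm, hpq⟩)
    (by
      intro z hz
      simp only [mem_insert, mem_singleton] at hz
      rcases hz with rfl | rfl | rfl
      · exact Or.inl hu
      · exact Or.inr (Or.inl ha)
      · exact Or.inr (Or.inr (Or.inr ⟨hw, hwx, hwy⟩)))
    (by
      intro z hz
      simp only [mem_insert, mem_singleton] at hz
      rcases hz with rfl | rfl | rfl
      · exact Or.inl hv
      · exact Or.inr (Or.inl hb)
      · exact Or.inr (Or.inr (Or.inl hp)))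
    (by
      intro z hz
      simp only [mem_insert, mem_singleton] at hz
      rcases hz with rfl | rfl | rfl
      · exact Or.inl ht
      · exact Or.inr (Or.inl hc)
      · exact Or.inr (Or.inr (Or.inl hq)))
    hz (Or.inr (Or.inr hr))
  simp only [mem_insert, mem_singleton] at this
  rcases this with (h | h | h) | (h | h | h) | (h | h | h)
  · exact nek hu hr h.symm
  · exact nfk ha hr h.symm
  · exact ok hr h
  · exact nek hv hr h.symm
  · exact nfk hb hr h.symm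
  · exact hpr h.symm
  · exact nek ht hr h.symm
  · exact nfk hc hr h.symm
  · exact hqr h.symm

/-- two disjoint label pairs on the same two blocks and a cross triple `{t, c, p}` leave the other
two points of the third block -/
theorem conflict_two (hM : MM F s M) {x y : V} (hx : x ∉ VS M) (hy : y ∉ VS M)
    {e f k : Finset V} (he : e ∈ M) (hf : f ∈ M) (hk : k ∈ M)
    (hef : e ≠ f) (hek : e ≠ k) (hfk : f ≠ k) {u v t a b c p r w w' : V}
    (hu : u ∈ e) (hv : v ∈ e) (ht : t ∈ e) (ha : a ∈ f) (hb : b ∈ f) (hc : c ∈ f)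
    (hp : p ∈ k) (hr : r ∈ k) (huv : u ≠ v) (hut : u ≠ t) (hvt : v ≠ t)
    (hab : a ≠ b) (hac : a ≠ c) (hbc : b ≠ c) (hpr : p ≠ r)
    (hw : w ∉ VS M) (hwx : w ≠ x) (hwy : w ≠ y) (hw' : w' ∉ VS M) (hwx' : w' ≠ x)
    (hwy' : w' ≠ y) (hww : w ≠ w') (h1 : ({u, a, w} : Finset V) ∈ F)
    (h2 : ({v, b, w'} : Finset V) ∈ F) (h3 : ({t, c, p} : Finset V) ∈ F) : r ∉ N F x y := by
  intro hz
  have nef : ∀ {i j : V}, i ∈ e → j ∈ f → i ≠ j := fun hi hj => hM.neq he hf hef hi hj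
  have nek : ∀ {i j : V}, i ∈ e → j ∈ k → i ≠ j := fun hi hj => hM.neq he hk hek hi hj
  have nfk : ∀ {i j : V}, i ∈ f → j ∈ k → i ≠ j := fun hi hj => hM.neq hf hk hfk hi hj
  have := three_blocks_cov hM hx hy he hf hk hef hek hfk h1 h2 h3
    (disj3 ⟨huv, nef hu hb, out_ne he hu hw', (nef hv ha).symm, hab, out_ne hf ha hw',
      (out_ne he hv hw).symm, (out_ne hf hb hw).symm, hww⟩)
    (disj3 ⟨hut, nef hu hc, nek hu hp, (nef ht ha).symm, hac, nfk ha hp,
      (out_ne he ht hw).symm, (out_ne hf hc hw).symm, (out_ne hk hp hw).symm⟩)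
    (disj3 ⟨hvt, nef hv hc, nek hv hp, (nef ht hb).symm, hbc, nfk hb hp,
      (out_ne he ht hw').symm, (out_ne hf hc hw').symm, (out_ne hk hp hw').symm⟩)
    (by
      intro z hz
      simp only [mem_insert, mem_singleton] at hz
      rcases hz with rfl | rfl | rfl
      · exact Or.inl hu
      · exact Or.inr (Or.inl ha)
      · exact Or.inr (Or.inr (Or.inr ⟨hw, hwx, hwy⟩)))
    (by
      intro z hz
      simp only [mem_insert, mem_singleton] at hz
      rcases hz with rfl | rfl | rfl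
      · exact Or.inl hv
      · exact Or.inr (Or.inl hb)
      · exact Or.inr (Or.inr (Or.inr ⟨hw', hwx', hwy'⟩)))
    (by
      intro z hz
      simp only [mem_insert, mem_singleton] at hz
      rcases hz with rfl | rfl | rfl
      · exact Or.inl ht
      · exact Or.inr (Or.inl hc)
      · exact Or.inr (Or.inr (Or.inl hp)))
    hz (Or.inr (Or.inr hr))
  simp only [mem_insert, mem_singleton] at this
  rcases this with (h | h | h) | (h | h | h) | (h | h | h)
  · exact nek hu hr h.symm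
  · exact nfk ha hr h.symm
  · exact out_ne hk hr hw h
  · exact nek hv hr h.symm
  · exact nfk hb hr h.symm
  · exact out_ne hk hr hw' h
  · exact nek ht hr h.symm
  · exact nfk hc hr h.symm
  · exact hpr h.symm

/-- a label pair `{u, a, w}` of `e, f`, a label pair `{v, p, w'}` of `e, k` and a cross triple
`{t, b, q}` leave the third points of `f` and `k` -/
theorem conflict_path (hM : MM F s M) {x y : V} (hx : x ∉ VS M) (hy : y ∉ VS M)
    {e f k : Finset V} (he : e ∈ M) (hf : f ∈ M) (hk : k ∈ M)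
    (hef : e ≠ f) (hek : e ≠ k) (hfk : f ≠ k) {u v t a b c p q r w w' : V}
    (hu : u ∈ e) (hv : v ∈ e) (ht : t ∈ e) (ha : a ∈ f) (hb : b ∈ f) (hc : c ∈ f)
    (hp : p ∈ k) (hq : q ∈ k) (hr : r ∈ k) (huv : u ≠ v) (hut : u ≠ t) (hvt : v ≠ t)
    (hab : a ≠ b) (hac : a ≠ c) (hbc : b ≠ c) (hpq : p ≠ q) (hpr : p ≠ r) (hqr : q ≠ r)
    (hw : w ∉ VS M) (hwx : w ≠ x) (hwy : w ≠ y) (hw' : w' ∉ VS M) (hwx' : w' ≠ x)
    (hwy' : w' ≠ y) (hww : w ≠ w') (h1 : ({u, a, w} : Finset V) ∈ F)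
    (h2 : ({v, p, w'} : Finset V) ∈ F) (h3 : ({t, b, q} : Finset V) ∈ F) :
    c ∉ N F x y ∧ r ∉ N F x y := by
  have nef : ∀ {i j : V}, i ∈ e → j ∈ f → i ≠ j := fun hi hj => hM.neq he hf hef hi hj
  have nek : ∀ {i j : V}, i ∈ e → j ∈ k → i ≠ j := fun hi hj => hM.neq he hk hek hi hj
  have nfk : ∀ {i j : V}, i ∈ f → j ∈ k → i ≠ j := fun hi hj => hM.neq hf hk hfk hi hj
  have key : ∀ z : V, z ∈ N F x y → (z ∈ e ∨ z ∈ f ∨ z ∈ k) →
      z ∈ ({u, a, w} : Finset V) ∨ z ∈ ({v, p, w'} : Finset V) ∨ z ∈ ({t, b, q} : Finset V) := by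
    intro z hz hze
    exact three_blocks_cov hM hx hy he hf hk hef hek hfk h1 h2 h3
      (disj3 ⟨huv, nek hu hp, out_ne he hu hw', (nef hv ha).symm, nfk ha hp, out_ne hf ha hw',
        (out_ne he hv hw).symm, (out_ne hk hp hw).symm, hww⟩)
      (disj3 ⟨hut, nef hu hb, nek hu hq, (nef ht ha).symm, hab, nfk ha hq,
        (out_ne he ht hw).symm, (out_ne hf hb hw).symm, (out_ne hk hq hw).symm⟩)
      (disj3 ⟨hvt, nef hv hb, nek hv hq, (nek ht hp).symm, (nfk hb hp).symm, hpq,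
        (out_ne he ht hw').symm, (out_ne hf hb hw').symm, (out_ne hk hq hw').symm⟩)
      (by
        intro z hz
        simp only [mem_insert, mem_singleton] at hz
        rcases hz with rfl | rfl | rfl
        · exact Or.inl hu
        · exact Or.inr (Or.inl ha)
        · exact Or.inr (Or.inr (Or.inr ⟨hw, hwx, hwy⟩)))
      (by
        intro z hz
        simp only [mem_insert, mem_singleton] at hz
        rcases hz with rfl | rfl | rfl
        · exact Or.inl hv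
        · exact Or.inr (Or.inr (Or.inl hp))
        · exact Or.inr (Or.inr (Or.inr ⟨hw', hwx', hwy'⟩)))
      (by
        intro z hz
        simp only [mem_insert, mem_singleton] at hz
        rcases hz with rfl | rfl | rfl
        · exact Or.inl ht
        · exact Or.inr (Or.inl hb)
        · exact Or.inr (Or.inr (Or.inl hq)))
      hz hze
  constructor
  · intro hz
    have := key c hz (Or.inr (Or.inl hc))
    simp only [mem_insert, mem_singleton] at this
    rcases this with (h | h | h) | (h | h | h) | (h | h | h)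
    · exact nef hu hc h.symm
    · exact hac h.symm
    · exact out_ne hf hc hw h
    · exact nef hv hc h.symm
    · exact nfk hc hp h
    · exact out_ne hf hc hw' h
    · exact nef ht hc h.symm
    · exact hbc h.symm
    · exact nfk hc hq h
  · intro hz
    have := key r hz (Or.inr (Or.inr hr))
    simp only [mem_insert, mem_singleton] at this
    rcases this with (h | h | h) | (h | h | h) | (h | h | h)
    · exact nek hu hr h.symm
    · exact nfk ha hr h.symm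
    · exact out_ne hk hr hw h
    · exact nek hv hr h.symm
    · exact hpr h.symm
    · exact out_ne hk hr hw' h
    · exact nek ht hr h.symm
    · exact nfk hb hr h.symm
    · exact hqr h.symm

end Helper1.Res
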