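import Pool.Agent.Helper1.Res.J01c
import Pool.Agent.Helper65.Res.Frame

/-!
# Route A, `j ≤ 1`: pairs of blocks without labels, and the bound for all pairs
-/

namespace Helper1.Res

open Finset Res12 RouteA Helper54.Res Helper9.Res

set_option linter.unusedSectionVars false
set_option linter.unusedVariables false

variable {V : Type} [Fintype V] [DecidableEq V]
variable {F P : Finset (Finset V)} {s j : ℕ} {x y : V}
variable {e f : Finset V} {u v t a b c : V}

section
variable (h : SetUp F s j P x y)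
include h

/-- an outside edge `{z, u, w}`: `{v, a, b}` or `{t, c, z'}` is missing -/
theorem flag_conf (p : Pm P e f u v t a b c) {z z' w : V} (hz : z ∉ VS P) (hz' : z' ∉ VS P)
    (hzz : z ≠ z') (hw : w ∉ VS P) (hwz : w ≠ z') (h1 : ({z, u, w} : Finset V) ∈ F) :
    1 ≤ ms F v a b + ms F t c z' := by
  by_contra hcon
  push Not at hcon
  have k1 : ms F v a b = 0 := by omega
  have k2 : ms F t c z' = 0 := by omega
  have hM := toMM h
  have nef : ∀ {i k : V}, i ∈ e → k ∈ f → i ≠ k := fun hi hk => hM.neq p.he p.hf p.hef hi hk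
  refine two_blocks hM p.he p.hf h1 (mem_of_ms k1) (mem_of_ms k2)
    (disj3 ⟨(out_ne p.he p.hv hz).symm, (out_ne p.hf p.ha hz).symm, (out_ne p.hf p.hb hz).symm,
      p.huv, nef p.hu p.ha, nef p.hu p.hb, (out_ne p.he p.hv hw).symm,
      (out_ne p.hf p.ha hw).symm, (out_ne p.hf p.hb hw).symm⟩)
    (disj3 ⟨(out_ne p.he p.ht hz).symm, (out_ne p.hf p.hc hz).symm, hzz, p.hut, nef p.hu p.hc,
      out_ne p.he p.hu hz', (out_ne p.he p.ht hw).symm, (out_ne p.hf p.hc hw).symm, hwz⟩)
    (disj3 ⟨p.hvt, nef p.hv p.hc, out_ne p.he p.hv hz', (nef p.ht p.ha).symm, p.hac,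
      out_ne p.hf p.ha hz', (nef p.ht p.hb).symm, p.hbc, out_ne p.hf p.hb hz'⟩) ?_ ?_ ?_
  · intro q hq
    simp only [mem_insert, mem_singleton] at hq
    rcases hq with rfl | rfl | rfl
    · exact Or.inr (Or.inr hz)
    · exact Or.inl p.hu
    · exact Or.inr (Or.inr hw)
  · intro q hq
    simp only [mem_insert, mem_singleton] at hq
    rcases hq with rfl | rfl | rfl
    · exact Or.inl p.hv
    · exact Or.inr (Or.inl p.ha)
    · exact Or.inr (Or.inl p.hb)
  · intro q hq
    simp only [mem_insert, mem_singleton] at hq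
    rcases hq with rfl | rfl | rfl
    · exact Or.inl p.ht
    · exact Or.inr (Or.inl p.hc)
    · exact Or.inr (Or.inr hz')

/-- `λ` of a pair `t c`, one of `x`, `y` taken into account -/
theorem lam_le_ms {z' : V} (hz' : z' = x ∨ z' = y) :
    lam F P t c ≤ (lb F P x y t c).card - (ms F t c z' : ℤ) := by
  have h1 := h.dW_eq t c
  by_cases hm : ({t, c, z'} : Finset V) ∈ F
  · have h2 : (N F t c ∩ {x, y}).card ≤ 2 := (card_le_card inter_subset_right).trans card_le_two
    unfold ms lam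
    rw [if_pos hm]
    push_cast
    omega
  · have h2 : (N F t c ∩ {x, y}).card ≤ 1 := by
      have h3 : N F t c ∩ {x, y} ⊆ ({x, y} : Finset V).erase z' := by
        intro q hq
        rw [mem_inter, mem_N] at hq
        rw [mem_erase]
        refine ⟨fun h' => hm ?_, hq.2⟩
        rw [← h']
        exact hq.1
      refine (card_le_card h3).trans ?_
      have h4 : z' ∈ ({x, y} : Finset V) := by
        rcases hz' with rfl | rfl <;> simp
      rw [card_erase_of_mem h4]
      have h5 := card_le_two (a := x) (b := y)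
      omega
    unfold ms lam
    rw [if_neg hm]
    push_cast
    omega

/-- a pair of blocks without labels and an outside edge at `u` containing `x` or `y` -/
theorem free_pair (p : Pm P e f u v t a b c) (hno : ∀ i ∈ e, ∀ k ∈ f, lb F P x y i k = ∅)
    {z z' : V} (hzz : z = x ∧ z' = y ∨ z = y ∧ z' = x) (hl : (lb F P x y z u).Nonempty) :
    Q3 F P e f ≤ -18 := by
  obtain ⟨w, hw⟩ := hl
  obtain ⟨w1, w2, w3, w4⟩ := mem_lb.1 hw
  have hz : z ∉ VS P := by
    rcases hzz with ⟨rfl, rfl⟩ | ⟨rfl, rfl⟩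
    · exact h.avx
    · exact h.avy
  have hz' : z' ∉ VS P := by
    rcases hzz with ⟨rfl, rfl⟩ | ⟨rfl, rfl⟩
    · exact h.avy
    · exact h.avx
  have hne : z ≠ z' := by
    rcases hzz with ⟨rfl, rfl⟩ | ⟨rfl, rfl⟩
    · exact h.ne
    · exact h.ne.symm
  have hwz : w ≠ z' := by
    rcases hzz with ⟨rfl, rfl⟩ | ⟨rfl, rfl⟩
    · exact w4
    · exact w3
  have hz2 : z' = x ∨ z' = y := by
    rcases hzz with ⟨rfl, rfl⟩ | ⟨rfl, rfl⟩
    · exact Or.inr rfl
    · exact Or.inl rfl
  have conf : ∀ {v t a b c : V}, Pm P e f u v t a b c → 1 ≤ ms F v a b + ms F t c z' :=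
    fun p => flag_conf h p hz hz' hne w2 hwz w1
  have f1 := conf p
  have f2 := conf (pm_c23 p)
  have f3 := conf (pm_c23 (pm_c12 p))
  have f4 := conf (pm_r23 p)
  have f5 := conf (pm_r23 (pm_c23 p))
  have f6 := conf (pm_r23 (pm_c23 (pm_c12 p)))
  have la : ∀ {i k : V}, i ∈ e → k ∈ f → lam F P i k ≤ -(ms F i k z' : ℤ) := by
    intro i k hi hk
    have := lam_le_ms h (t := i) (c := k) hz2
    rw [hno i hi k hk, card_empty] at this
    push_cast at this
    linarith
  have l1 := lam_nolabel h (hno u p.hu a p.ha)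
  have l2 := lam_nolabel h (hno u p.hu b p.hb)
  have l3 := lam_nolabel h (hno u p.hu c p.hc)
  have l4 := la p.hv p.ha
  have l5 := la p.hv p.hb
  have l6 := la p.hv p.hc
  have l7 := la p.ht p.ha
  have l8 := la p.ht p.hb
  have l9 := la p.ht p.hc
  rw [Q3_eq h p]
  push_cast at *
  zify at *
  linarith

/-- a flagged block -/
theorem pair_flag (hs : 3 ≤ s) (hj : j ≤ 1) (hT : ty F x y e + ty F x y f ≤ 1)
    (he : e ∈ P) (hf : f ∈ P) (hef : e ≠ f) {i : V} (hi : i ∈ e)
    (hl : (lb F P x y x i).Nonempty ∨ (lb F P x y y i).Nonempty) : Q3 F P e f ≤ -18 := by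
  by_cases hlab : ∃ i ∈ e, ∃ k ∈ f, (lb F P x y i k).Nonempty
  · obtain ⟨i, hi, k, hk, hik⟩ := hlab
    exact pair_label h hs hj hT he hf hef hi hk hik
  · have hno : ∀ i ∈ e, ∀ k ∈ f, lb F P x y i k = ∅ := by
      intro i hi k hk
      by_contra hcon
      exact hlab ⟨i, hi, k, hk, nonempty_iff_ne_empty.2 hcon⟩
    obtain ⟨k, hk⟩ : f.Nonempty := by
      rw [← card_pos, h.threeP f hf]
      omega
    obtain ⟨v, t, b, c, p⟩ := Helper1.Res.exists_pm h he hf hef hi hk
    rcases hl with hl | hl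
    · exact free_pair h p hno (Or.inl ⟨rfl, rfl⟩) hl
    · exact free_pair h p hno (Or.inr ⟨rfl, rfl⟩) hl

/-- every perfect matching -/
theorem T3_le (hs : 3 ≤ s) (hj : j ≤ 1) (hT : ty F x y e + ty F x y f ≤ 1)
    (p : Pm P e f u v t a b c) : Helper9.Res.T3 F P e f u v t a b c ≤ -3 * (j : ℤ) := by
  have nog : ∀ {u v t a b c : V}, Pm P e f u v t a b c → Gam F P x y s j e f u v t a b c →
      False := by
    intro u v t a b c p g
    obtain ⟨g1, g2, -⟩ := g
    obtain ⟨k1, k2⟩ := ty_pair h p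
    have e1 : ep F x y t = 1 := by unfold ep; rw [if_neg g1]
    have e2 : ep F x y c = 1 := by unfold ep; rw [if_neg g2]
    omega
  rcases cls_num h p with k | k | ⟨-, k | k | k⟩
  · exact k
  · omega
  · exact (nog p k).elim
  · exact (nog p.rot k).elim
  · exact (nog p.rot.rot k).elim

/-- **every pair of blocks** -/
theorem pair_all (hs : 3 ≤ s) (hj : j ≤ 1) (hT : ty F x y e + ty F x y f ≤ 1)
    (he : e ∈ P) (hf : f ∈ P) (hef : e ≠ f) : Q3 F P e f ≤ -9 * (j : ℤ) := by
  have h1 := sum_cells_le (fun i k => tau F P e f i k) (-3 * (j : ℤ)) h.threeP he hf hef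
    (fun u v t a b c p => T3_le h hs hj hT p)
  have h2 := h.sum_tau he hf hef
  have h3 : (0 : ℤ) ≤ (mis F {e, f}).card := by positivity
  unfold Q3
  rw [h2] at h1
  linarith

end

end Helper1.Res
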