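import Pool.Agent.Helper1.Res.J01

/-!
# Route A, the case `j ≤ 1`: the final sum
-/

namespace Helper1.Res

open Finset Res12 RouteA Helper54.Res Helper9.Res

set_option linter.unusedSectionVars false
set_option linter.unusedVariables false

variable {V : Type} [Fintype V] [DecidableEq V]
variable {F P : Finset (Finset V)} {s j : ℕ} {x y : V}

/-- the exact identity as a sum over the blocks -/
theorem exact_Q3 (h : SetUp F s j P x y) :
    6 * ((F.card : ℤ) - ((3 * s + 2).choose 3 : ℤ)) =
      ∑ e ∈ P, (6 * ((Res83.A F P {e} : ℤ) - 10) + ∑ f ∈ P.erase e, Q3 F P e f) := by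
  rw [h.exact]
  have h1 := RouteA.sum_two P (fun S => (Res83.A F P S : ℤ) - 36)
  have h2 := h.sum_m3
  zify at h2
  have h3 : ∑ e ∈ P, ∑ f ∈ P.erase e, ((Res83.A F P {e, f} : ℤ) - 36) =
      ∑ e ∈ P, ∑ f ∈ P.erase e, (∑ a ∈ e, ∑ b ∈ f, lam F P a b - (mis F {e, f}).card) := by
    refine sum_congr rfl fun e he => sum_congr rfl fun f hf => ?_
    rw [mem_erase] at hf
    exact h.A_pair he hf.2 (Ne.symm hf.1)
  have h4 : ∑ e ∈ P, ∑ f ∈ P.erase e, Q3 F P e f =
      3 * ∑ e ∈ P, ∑ f ∈ P.erase e, (∑ a ∈ e, ∑ b ∈ f, lam F P a b - (mis F {e, f}).card) -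
      ∑ e ∈ P, ∑ f ∈ P.erase e, ∑ a ∈ e, ∑ b ∈ f, ((m3 F P e f a b).card : ℤ) := by
    rw [mul_sum, ← sum_sub_distrib]
    refine sum_congr rfl fun e _ => ?_
    rw [mul_sum, ← sum_sub_distrib]
    refine sum_congr rfl fun f _ => ?_
    unfold Q3
    ring
  rw [sum_add_distrib, h4, ← h3, ← h1, ← h2, ← mul_sum]
  ring

/-- **the case `j ≤ 1`** -/
theorem card_le_j01 (h : SetUp F s j P x y) (hj : j ≤ 1) (hs : 3 ≤ s) :
    F.card ≤ (3 * s + 2).choose 3 := by
  have key := exact_Q3 h
  have hle : ∑ e ∈ P, (6 * ((Res83.A F P {e} : ℤ) - 10) + ∑ f ∈ P.erase e, Q3 F P e f) ≤ 0 := by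
    refine sum_nonpos fun e he => ?_
    have hte : ty F x y e ≤ j := by
      rw [← h.sum_ty]
      exact single_le_sum (f := fun e => ty F x y e) (fun _ _ => Nat.zero_le _) he
    have htef : ∀ f ∈ P.erase e, ty F x y e + ty F x y f ≤ 1 := by
      intro f hf
      rw [mem_erase] at hf
      have := sum_ty_third h he hf.2 (Ne.symm hf.1)
      omega
    have hc : (P.erase e).card = s - 1 := by rw [card_erase_of_mem he, h.card]
    obtain ⟨B1, B2⟩ := block_bound h hs he (by omega)
    by_cases hflag : ∃ i ∈ e, (lb F P x y x i).Nonempty ∨ (lb F P x y y i).Nonempty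
    · obtain ⟨i, hi, hl⟩ := hflag
      have h1 : ∑ f ∈ P.erase e, Q3 F P e f ≤ ∑ f ∈ P.erase e, (-18 : ℤ) := by
        refine sum_le_sum fun f hf => ?_
        have hf' := mem_erase.1 hf
        exact pair_flag h hs hj (htef f hf) he hf'.2 (Ne.symm hf'.1) hi hl
      rw [sum_const, hc, nsmul_eq_mul, Nat.cast_sub (by omega)] at h1
      push_cast at h1
      linarith
    · have hno : ∀ u ∈ e, lb F P x y x u = ∅ ∧ lb F P x y y u = ∅ := by
        intro u hu
        constructor
        · by_contra hcon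
          exact hflag ⟨u, hu, Or.inl (nonempty_iff_ne_empty.2 hcon)⟩
        · by_contra hcon
          exact hflag ⟨u, hu, Or.inr (nonempty_iff_ne_empty.2 hcon)⟩
      have B3 := B2 hno
      have h1 : ∑ f ∈ P.erase e, Q3 F P e f ≤ ∑ f ∈ P.erase e, (-9 * (j : ℤ)) := by
        refine sum_le_sum fun f hf => ?_
        have hf' := mem_erase.1 hf
        exact pair_all h hs hj (htef f hf) he hf'.2 (Ne.symm hf'.1)
      rw [sum_const, hc, nsmul_eq_mul, Nat.cast_sub (by omega)] at h1
      push_cast at h1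
      have hj' : j = 0 ∨ j = 1 := by omega
      rcases hj' with rfl | rfl
      · have : ty F x y e = 0 := by omega
        rw [this] at B3
        push_cast at *
        linarith
      · have : ty F x y e = 0 ∨ ty F x y e = 1 := by omega
        rcases this with h2 | h2
        · rw [h2] at B3
          push_cast at *
          linarith
        · rw [h2] at B3
          push_cast at *
          linarith
  rw [← key] at hle
  have : (F.card : ℤ) ≤ ((3 * s + 2).choose 3 : ℤ) := by linarith
  exact_mod_cast this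

end Helper1.Res

namespace RouteA

open Finset Res12

variable {V : Type} [Fintype V] [DecidableEq V]
variable {F P : Finset (Finset V)} {s : ℕ} {x y : V}

/-- **the case `j = 1`** -/
theorem card_le_j1 (h : SetUp F s 1 P x y) (hs : 3 ≤ s) : F.card ≤ (3 * s + 2).choose 3 :=
  Helper1.Res.card_le_j01 h le_rfl hs

end RouteA
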